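import Pool.Agent.H951Z.AlsterDefs

set_option autoImplicit false

namespace Pool.Agent.H951Z.Alster

open Set

universe u

def cyl {I : Type} (x : I → Bool) (s : Finset I) : Set (I → Bool) := {z | ∀ i ∈ s, z i = x i}

theorem exists_cyl {I : Type} {O : Set (I → Bool)} (hO : IsOpen O) {x : I → Bool} (hx : x ∈ O) :
    ∃ s : Finset I, cyl x s ⊆ O := by
  obtain ⟨s, w, h1, h2⟩ := isOpen_pi_iff.1 hO x hx
  refine ⟨s, fun z hz => h2 fun i hi => ?_⟩
  rw [hz i hi]
  exact (h1 i hi).2

theorem exists_box {I : Type} {X : Set (I → Bool)} {Y : Type u} [TopologicalSpace Y]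
    {W : Set (X × Y)} (hW : IsOpen W) {x : X} {y : Y} (h : (x, y) ∈ W) :
    ∃ (s : Finset I) (V : Set Y), IsOpen V ∧ y ∈ V ∧
      ∀ p : X × Y, p.1.1 ∈ cyl x.1 s → p.2 ∈ V → p ∈ W := by
  obtain ⟨A, V, hA, hV, hx, hy, hsub⟩ := isOpen_prod_iff.1 hW x y h
  obtain ⟨O, hO, rfl⟩ := isOpen_induced_iff.1 hA
  obtain ⟨s, hs⟩ := exists_cyl hO hx
  exact ⟨s, V, hV, hy, fun p h1 h2 => hsub ⟨hs h1, h2⟩⟩

theorem countable_finsets {I : Type} {A : Set I} (hA : A.Countable) :
    {s : Finset I | (s : Set I) ⊆ A}.Countable := by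
  have h := Set.countable_ofPred_finite_subset hA
  refine (h.preimage_of_injOn (f := fun s : Finset I => (s : Set I))
    Finset.coe_injective.injOn).mono ?_
  intro s hs
  exact ⟨s.finite_toSet, hs⟩

theorem productively_of_dense {I : Type} (X : Set (I → Bool))
    (hX : ∀ (z : I → Bool) (s : Finset I), ∃ x ∈ X, x ∈ cyl z s) :
    ProductivelyWeaklyLindelof.{u} X := by
  classical
  intro Y _ hY 𝒲 hopen hcov
  choose x hxX hx using fun t : Finset I × Finset I => hX (fun i => decide (i ∈ t.2)) t.1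
  have key : ∀ t : Finset I × Finset I, ∃ 𝒱 : Set (Set Y), 𝒱.Countable ∧ Dense (⋃₀ 𝒱) ∧
      ∀ V ∈ 𝒱, ∃ (s : Finset I) (W : Set (X × Y)), W ∈ 𝒲 ∧
        ∀ p : X × Y, p.1.1 ∈ cyl (x t) s → p.2 ∈ V → p ∈ W := by
    intro t
    obtain ⟨𝒱, h1, h2, h3⟩ := hY {V | IsOpen V ∧ ∃ (s : Finset I) (W : Set (X × Y)), W ∈ 𝒲 ∧
        ∀ p : X × Y, p.1.1 ∈ cyl (x t) s → p.2 ∈ V → p ∈ W} (fun V hV => hV.1) (by
      refine eq_univ_of_forall fun y => ?_
      have : ((⟨x t, hxX t⟩ : X), y) ∈ ⋃₀ 𝒲 := by rw [hcov]; exact mem_univ _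
      obtain ⟨W, hW, hm⟩ := this
      obtain ⟨s, V, hV, hy, hb⟩ := exists_box (hopen W hW) hm
      exact ⟨V, ⟨hV, s, W, hW, hb⟩, hy⟩)
    exact ⟨𝒱, h2, h3, fun V hV => (h1 hV).2⟩
  choose 𝒱 hc hd hb using key
  choose! s W hW hbox using hb
  let pat : Set I → Set (Finset I × Finset I) :=
    fun A => {s : Finset I | (s : Set I) ⊆ A} ×ˢ {s : Finset I | (s : Set I) ⊆ A}
  have hpat : ∀ A : Set I, A.Countable → (pat A).Countable :=
    fun A hA => (countable_finsets hA).prod (countable_finsets hA)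
  let nxt : Set I → Set I := fun A => A ∪ ⋃ t ∈ pat A, ⋃ V ∈ 𝒱 t, (s t V : Set I)
  let A : ℕ → Set I := fun n => nxt^[n] ∅
  have hAs : ∀ n, A (n + 1) = nxt (A n) := fun n => Function.iterate_succ_apply' _ _ _
  have hAc : ∀ n, (A n).Countable := by
    intro n
    induction n with
    | zero => exact countable_empty
    | succ n ih =>
      rw [hAs]
      exact ih.union ((hpat _ ih).biUnion fun t _ =>
        (hc t).biUnion fun V _ => (s t V).countable_toSet)
  have hAm : Monotone A := monotone_nat_of_le_succ fun n => by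
    rw [hAs]; exact subset_union_left
  have hfin : ∀ F : Finset I, (F : Set I) ⊆ ⋃ n, A n → ∃ n, (F : Set I) ⊆ A n :=
    fun F hF => hAm.directed_le.exists_mem_subset_of_finset_subset_biUnion hF
  have hclosed : ∀ t ∈ pat (⋃ n, A n), ∀ V ∈ 𝒱 t, (s t V : Set I) ⊆ ⋃ n, A n := by
    intro t ht V hV
    obtain ⟨n1, h1⟩ := hfin _ ht.1
    obtain ⟨n2, h2⟩ := hfin _ ht.2
    have h3 : t ∈ pat (A (max n1 n2)) :=
      ⟨h1.trans (hAm (le_max_left _ _)), h2.trans (hAm (le_max_right _ _))⟩
    refine Subset.trans ?_ (subset_iUnion A (max n1 n2 + 1))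
    rw [hAs]
    intro i hi
    exact Or.inr (mem_biUnion h3 (mem_biUnion hV hi))
  refine ⟨⋃ t ∈ pat (⋃ n, A n), (W t) '' (𝒱 t), ?_, ?_, ?_⟩
  · intro w hw
    obtain ⟨t, -, V, hV, rfl⟩ := mem_iUnion₂.1 hw
    exact hW t V hV
  · exact (hpat _ (countable_iUnion hAc)).biUnion fun t _ => (hc t).image _
  · rw [dense_iff_inter_open]
    rintro O hO ⟨⟨x0, y0⟩, h0⟩
    obtain ⟨F, V0, hV0, hy0, hb0⟩ := exists_box hO h0
    let t : Finset I × Finset I := (F.filter (fun i => i ∈ ⋃ n, A n),
      (F.filter (fun i => i ∈ ⋃ n, A n)).filter (fun i => x0.1 i = true))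
    have ht : t ∈ pat (⋃ n, A n) := by
      constructor
      · intro i hi
        exact (Finset.mem_filter.1 hi).2
      · intro i hi
        exact (Finset.mem_filter.1 (Finset.mem_filter.1 hi).1).2
    obtain ⟨y, hyV0, V, hV, hyV⟩ := (dense_iff_inter_open.1 (hd t)) V0 hV0 ⟨y0, hy0⟩
    obtain ⟨z, hzX, hz⟩ := hX (fun i => if i ∈ F then x0.1 i else x t i) (F ∪ s t V)
    refine ⟨(⟨z, hzX⟩, y), hb0 _ ?_ hyV0, W t V, mem_iUnion₂.2 ⟨t, ht, V, hV, rfl⟩,
      hbox t V hV _ ?_ hyV⟩
    · intro i hi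
      have := hz i (Finset.mem_union_left _ hi)
      simpa [hi] using this
    · intro i hi
      have h1 := hz i (Finset.mem_union_right _ hi)
      by_cases hF : i ∈ F
      · have h2 : i ∈ t.1 := Finset.mem_filter.2 ⟨hF, hclosed t ht V hV hi⟩
        have h3 := hx t i h2
        simp only [if_pos hF] at h1
        show z i = x t i
        rw [h1, h3]
        have h4 : i ∈ t.2 ↔ x0.1 i = true := by
          simp only [t, Finset.mem_filter] at h2 ⊢
          tauto
        cases h5 : x0.1 i <;> simp [h4, h5]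
      · simpa [hF] using h1

/-- Index set of the second block of coordinates. -/
abbrev J : Type := ℕ → Bool

theorem exists_surj : ∃ e : J → Finset J, Function.Surjective e := by
  have h : Cardinal.mk (Finset J) ≤ Cardinal.mk J := (Cardinal.mk_finset_of_infinite J).le
  obtain ⟨f⟩ := Cardinal.le_def _ _ |>.1 h
  exact ⟨Function.invFun f, Function.invFun_surjective f.injective⟩

noncomputable def ee : J → Finset J := exists_surj.choose

open Classical in
noncomputable def psi (r : J) : J := fun n => decide (∃ N, ∀ k ≥ N, r (Nat.pair n k) = true)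

open Classical in
noncomputable def pt (r : J) : ℕ ⊕ J → Bool :=
  Sum.elim r (fun j => decide (j ∈ ee (psi r)))

def XX : Set (ℕ ⊕ J → Bool) := range pt

theorem XX_dense (z : ℕ ⊕ J → Bool) (s : Finset (ℕ ⊕ J)) : ∃ x ∈ XX, x ∈ cyl z s := by
  classical
  obtain ⟨a, ha⟩ := exists_surj.choose_spec (s.toRight.filter fun j => z (Sum.inr j) = true)
  obtain ⟨N, hN⟩ : ∃ N : ℕ, ∀ m ∈ s.toLeft, m < N :=
    ⟨s.toLeft.sup id + 1, fun m hm => Nat.lt_succ_of_le (Finset.le_sup (f := id) hm)⟩
  let r : J := fun m => if m < N then z (Sum.inl m) else a (Nat.unpair m).1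
  have hr : psi r = a := by
    funext n
    have h1 : ∀ k ≥ N, r (Nat.pair n k) = a n := by
      intro k hk
      have : ¬ Nat.pair n k < N := not_lt.2 (le_trans hk (Nat.right_le_pair n k))
      simp [r, this]
    unfold psi
    cases h : a n
    · rw [decide_eq_false_iff_not]
      rintro ⟨M, hM⟩
      have h2 := hM (max M N) (le_max_left _ _)
      rw [h1 _ (le_max_right _ _), h] at h2
      exact Bool.noConfusion h2
    · rw [decide_eq_true_eq]
      exact ⟨N, fun k hk => by rw [h1 k hk, h]⟩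
  refine ⟨pt r, mem_range_self r, fun i hi => ?_⟩
  cases i with
  | inl m =>
    have := hN m (Finset.mem_toLeft.2 hi)
    simp [pt, r, this]
  | inr j =>
    have h1 : ee (psi r) = s.toRight.filter fun j => z (Sum.inr j) = true := by
      rw [hr]; exact ha
    have h2 : j ∈ s.toRight := Finset.mem_toRight.2 hi
    simp only [pt, Sum.elim_inr, h1, Finset.mem_filter, h2, true_and]
    cases z (Sum.inr j) <;> simp

def proj (x : XX) : J := fun n => x.1 (Sum.inl n)

theorem proj_cont : Continuous proj :=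
  continuous_pi fun n => (continuous_apply (Sum.inl n)).comp continuous_subtype_val

theorem proj_inj : Function.Injective proj := by
  rintro ⟨_, r, rfl⟩ ⟨_, r', rfl⟩ h
  have : r = r' := h
  subst this
  rfl

def supp (x : XX) : Set J := {j | x.1 (Sum.inr j) = true}

theorem supp_finite (x : XX) : (supp x).Finite := by
  obtain ⟨_, r, rfl⟩ := x
  refine (ee (psi r)).finite_toSet.subset fun j hj => ?_
  simpa [supp, pt] using hj

theorem open_coord (j : J) : IsOpen {x : XX | x.1 (Sum.inr j) = true} := by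
  have h : Continuous (fun x : XX => x.1 (Sum.inr j)) :=
    (continuous_apply (Sum.inr j)).comp continuous_subtype_val
  exact (isOpen_discrete ({true} : Set Bool)).preimage h

theorem compact_supp (C : Set XX) (hC : IsCompact C) : (⋃ x ∈ C, supp x).Countable := by
  have : CompactSpace C := isCompact_iff_compactSpace.1 hC
  have he : Topology.IsClosedEmbedding (fun x : C => proj x.1) :=
    (proj_cont.comp continuous_subtype_val).isClosedEmbedding
      (proj_inj.comp Subtype.val_injective)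
  have : SecondCountableTopology C := he.isEmbedding.secondCountableTopology
  obtain ⟨D, hDc, hDd⟩ := TopologicalSpace.exists_countable_dense C
  refine (hDc.biUnion fun d _ => (supp_finite d.1).countable).mono ?_
  intro j hj
  obtain ⟨x, hx, hxj⟩ := mem_iUnion₂.1 hj
  obtain ⟨d, h1, h2⟩ := dense_iff_inter_open.1 hDd _
    ((open_coord j).preimage continuous_subtype_val) ⟨⟨x, hx⟩, hxj⟩
  exact mem_biUnion h2 h1

theorem compact_Gd (C : Set XX) (hC : IsCompact C) : IsGδ C := by
  have h1 : IsGδ (proj '' C) := (hC.image proj_cont).isClosed.isGδ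
  have h2 := h1.preimage proj_cont
  rwa [preimage_image_eq C proj_inj] at h2

theorem not_dense (𝒱 : Set (Set XX)) (hc : 𝒱.Countable) (h : ∀ C ∈ 𝒱, IsCompact C) :
    ¬ Dense (⋃₀ 𝒱) := by
  intro hd
  have h1 : (⋃ C ∈ 𝒱, ⋃ x ∈ C, supp x).Countable := hc.biUnion fun C hC => compact_supp C (h C hC)
  have h2 : (⋃ C ∈ 𝒱, ⋃ x ∈ C, supp x) ≠ univ := by
    intro h3
    rw [h3] at h1
    have : Uncountable J := by
      rw [← Cardinal.aleph0_lt_mk_iff]
      simp only [J, Cardinal.mk_arrow, Cardinal.mk_bool, Cardinal.mk_nat, Cardinal.lift_id]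
      exact Cardinal.cantor _
    exact not_countable_univ h1
  obtain ⟨j, hj⟩ := (ne_univ_iff_exists_notMem _).1 h2
  obtain ⟨x, hxX, hx⟩ := XX_dense (fun _ => true) {Sum.inr j}
  obtain ⟨y, h3, C, hC, hy⟩ := dense_iff_inter_open.1 hd _ (open_coord j)
    ⟨⟨x, hxX⟩, hx _ (Finset.mem_singleton_self _)⟩
  exact hj (mem_biUnion hC (mem_biUnion hy h3))

theorem not_alster : ¬ WeaklyAlster XX := by
  intro h
  obtain ⟨𝒱, h1, h2, h3⟩ := h {C | IsCompact C} compact_Gd (fun hu => by
    refine not_dense {univ} (countable_singleton _) ?_ (by simp)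
    intro C hC
    rw [mem_singleton_iff.1 hC]
    exact hu) (fun C hC => ⟨C, hC, Subset.rfl⟩)
  exact not_dense 𝒱 h2 h1 h3

theorem main : ∃ (X : Type) (_ : TopologicalSpace X), T35Space X ∧
    ProductivelyWeaklyLindelof.{u} X ∧ ¬ WeaklyAlster X :=
  ⟨XX, inferInstance, inferInstance, productively_of_dense XX XX_dense, not_alster⟩

end Pool.Agent.H951Z.Alster
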