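import Mathlib

set_option autoImplicit false

namespace Pool.Agent.H951Z.Alster

universe u v

/-- Every open cover has a countable subfamily with dense union. -/
def WeaklyLindelof (X : Type v) [TopologicalSpace X] : Prop :=
  ∀ 𝒰 : Set (Set X), (∀ U ∈ 𝒰, IsOpen U) → ⋃₀ 𝒰 = Set.univ →
    ∃ 𝒱 : Set (Set X), 𝒱 ⊆ 𝒰 ∧ 𝒱.Countable ∧ Dense (⋃₀ 𝒱)

/-- The product with every weakly Lindelof space `Y` (of the universe `u`) is weakly Lindelof. -/
def ProductivelyWeaklyLindelof (X : Type) [TopologicalSpace X] : Prop :=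
  ∀ (Y : Type u) [TopologicalSpace Y], WeaklyLindelof Y → WeaklyLindelof (X × Y)

/-- Every family of `Gδ` sets that does not have `X` as a member and such that each compact set lies
in one of its members has a countable subfamily with dense union. -/
def WeaklyAlster (X : Type) [TopologicalSpace X] : Prop :=
  ∀ 𝒰 : Set (Set X), (∀ U ∈ 𝒰, IsGδ U) → Set.univ ∉ 𝒰 →
    (∀ C : Set X, IsCompact C → ∃ U ∈ 𝒰, C ⊆ U) →
    ∃ 𝒱 : Set (Set X), 𝒱 ⊆ 𝒰 ∧ 𝒱.Countable ∧ Dense (⋃₀ 𝒱)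

end Pool.Agent.H951Z.Alster
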