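import Pool.Agent.H951Z.Lattice2

set_option autoImplicit false

namespace Pool.Agent.H951Z

open Finset

noncomputable def S (z : ℝ × ℝ) : ℝ := (N z) ^ (-sg)

theorem S_nonneg (z : ℝ × ℝ) : 0 ≤ S z := Real.rpow_nonneg (N_nonneg z) _

theorem S_rot (z : ℝ × ℝ) : S (rot z) = S z := by unfold S; rw [N_rot]

theorem S_smul (c : ℝ) (z : ℝ × ℝ) : S (c • z) = (c ^ 2) ^ (-sg) * S z := by
  unfold S; rw [N_smul, Real.mul_rpow (sq_nonneg c) (N_nonneg z)]

theorem T_S_smul (c : ℝ) (n : ℕ) (z : ℝ × ℝ) :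
    T M n S (c • z) = (c ^ 2) ^ (-sg) * T M n S z := by
  rw [← T_conj M M (fun x => c • x) (fun i x => (M_smul i c x).symm) S n z, ← T_mul]
  congr 1
  funext x
  exact S_smul c x

def uu (t : ℝ) : ℝ × ℝ := (2 * t, 1 - t)

theorem N_uu (t : ℝ) : N (uu t) = 1 + 3 * t ^ 2 := by simp only [N, uu]; ring
theorem M0_uu (t : ℝ) : M 0 (uu t) = uu (3 * t) := by
  simp only [M0, uu, Prod.mk.injEq]; constructor <;> ring
theorem N_M1_uu (t : ℝ) : N (M 1 (uu t)) = 7 - 12 * t + 9 * t ^ 2 := by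
  simp only [N, uu, M1]; ring
theorem N_M2_uu (t : ℝ) : N (M 2 (uu t)) = 7 + 12 * t + 9 * t ^ 2 := by
  simp only [N, uu, M2]; ring

theorem N_uu_pos (t : ℝ) : 0 < N (uu t) := by rw [N_uu]; positivity

theorem S_uu_le (t : ℝ) : S (uu t) ≤ 1 := by
  unfold S
  apply Real.rpow_le_one_of_one_le_of_nonpos
  · rw [N_uu]; nlinarith [sq_nonneg t]
  · unfold sg; norm_num

def cast2 (z : ℤ × ℤ) : ℝ × ℝ := ((z.1 : ℝ), (z.2 : ℝ))

theorem M_cast2 (i : Fin 3) (z : ℤ × ℤ) : M i (cast2 z) = cast2 (M i z) := by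
  fin_cases i
  · simp only [Fin.zero_eta, M0, cast2]; push_cast; rfl
  · simp only [Fin.mk_one, M1, cast2]; push_cast; rfl
  · simp only [Fin.reduceFinMk, M2, cast2]; push_cast; rfl

theorem N_cast2 (z : ℤ × ℤ) : N (cast2 z) = ((N z : ℤ) : ℝ) := by
  simp only [N, cast2]; push_cast; rfl

theorem distort0 (x z : ℝ × ℝ) (h : N (x - z) ≤ 1 / 4) (hz : 7 ≤ N z) : S x ≤ phi (N z) := by
  unfold S phi
  set s := Real.sqrt (N z) with hs
  have hs2 : s ^ 2 = N z := Real.sq_sqrt (N_nonneg z)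
  have hs0 : 0 ≤ s := Real.sqrt_nonneg _
  have hs1 : 1 ≤ s := by nlinarith
  set u := Real.sqrt (N x) with hu
  have hu2 : u ^ 2 = N x := Real.sq_sqrt (N_nonneg x)
  have hu0 : 0 ≤ u := Real.sqrt_nonneg _
  obtain ⟨a, b⟩ := x
  obtain ⟨c, d⟩ := z
  have hN1 : N ((a, b) - (c, d)) = (a - c) ^ 2 + (a - c) * (b - d) + (b - d) ^ 2 := rfl
  have hN2 : N (a, b) = a ^ 2 + a * b + b ^ 2 := rfl
  have hN3 : N (c, d) = c ^ 2 + c * d + d ^ 2 := rfl
  set e := a - c with he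
  set f := b - d with hf
  set ip := 2 * a * e + a * f + b * e + 2 * b * f with hip
  have h1 : N (c, d) = N (a, b) - ip + N ((a, b) - (c, d)) := by
    rw [hN1, hN2, hN3, hip, he, hf]; ring
  have h2 : ip ^ 2 ≤ 4 * N (a, b) * N ((a, b) - (c, d)) := by
    rw [hN1, hN2, hip]; nlinarith [sq_nonneg (a * f - b * e)]
  have h3 : ip ^ 2 ≤ u ^ 2 := by
    have := N_nonneg (a, b)
    rw [hu2]; nlinarith
  have h4 : -ip ≤ u := by
    have := abs_le_of_sq_le_sq' h3 hu0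
    linarith [this.1]
  have h5 : s ≤ u + 1 / 2 := by
    refine (abs_le_of_sq_le_sq' ?_ (by linarith)).2
    nlinarith
  refine Real.rpow_le_rpow_of_nonpos (by nlinarith) ?_ (by unfold sg; norm_num)
  rw [← hu2]
  exact pow_le_pow_left₀ (by linarith) (by linarith) 2

theorem distort (k : ℕ) (x : ℝ × ℝ) (z : ℤ × ℤ) (h : N (x - cast2 z) * 9 ^ k ≤ 1 / 4)
    (hz : 7 ≤ N (cast2 z)) : T M k S x ≤ T M k GZ z := by
  refine T_rel M M S GZ (fun k x z => N (x - cast2 z) * 9 ^ k ≤ 1 / 4 ∧ 7 ≤ N (cast2 z))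
    ?_ ?_ k x z ⟨h, hz⟩
  · rintro k x z i ⟨h1, h2⟩
    rw [← M_cast2, ← M_sub]
    refine ⟨?_, h2.trans (N_le_M i _)⟩
    have h3 := N_M_le i (x - cast2 z)
    have h4 : (0 : ℝ) < 9 ^ k := by positivity
    rw [pow_succ] at h1
    nlinarith
  · rintro x z ⟨h1, h2⟩
    unfold GZ
    rw [← N_cast2]
    exact distort0 x _ (by simpa using h1) h2

theorem side_small (k : ℕ) (t : ℝ) (h : |t| * 3 ^ k ≤ 1 / 6) :
    T M k S (M 1 (uu t)) + T M k S (M 2 (uu t)) ≤ LL k := by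
  have h0 : 0 ≤ |t| * 3 ^ k := by positivity
  have h1 : 9 * t ^ 2 * 9 ^ k ≤ 1 / 4 := by
    have e : (9 : ℝ) ^ k = (3 ^ k) ^ 2 := by rw [← pow_mul, mul_comm, pow_mul]; norm_num
    have e2 : t ^ 2 * (3 ^ k) ^ 2 = (|t| * 3 ^ k) ^ 2 := by rw [mul_pow, sq_abs]
    rw [e, mul_assoc, e2]
    nlinarith
  have a1 : N (M 1 (uu t) - cast2 (-1, 3)) = 9 * t ^ 2 := by
    simp only [N, uu, M1, cast2, Prod.fst_sub, Prod.snd_sub]; push_cast; ring
  have a2 : N (M 2 (uu t) - cast2 (1, 2)) = 9 * t ^ 2 := by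
    simp only [N, uu, M2, cast2, Prod.fst_sub, Prod.snd_sub]; push_cast; ring
  have b1 : (7 : ℝ) ≤ N (cast2 (-1, 3)) := by simp only [N, cast2]; norm_num
  have b2 : (7 : ℝ) ≤ N (cast2 (1, 2)) := by simp only [N, cast2]; norm_num
  exact add_le_add (distort k _ _ (by rw [a1]; exact h1) b1)
    (distort k _ _ (by rw [a2]; exact h1) b2)

theorem LL_zero : LL 0 ≤ 2 := by
  have h : phi 7 ≤ 1 := by
    have := phi_le_cc
    unfold phi
    apply Real.rpow_le_one_of_one_le_of_nonpos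
    · have : (2 : ℝ) ≤ Real.sqrt 7 := Real.le_sqrt_of_sq_le (by norm_num)
      nlinarith
    · unfold sg; norm_num
  have e1 : GZ (-1, 3) = phi 7 := by unfold GZ; simp only [N]; norm_num
  have e2 : GZ (1, 2) = phi 7 := by unfold GZ; simp only [N]; norm_num
  unfold LL
  rw [T_zero, T_zero, e1, e2]
  linarith

theorem T_uu (m : ℕ) (t : ℝ) : T M (m + 1) S (uu t) =
    T M m S (uu (3 * t)) + (T M m S (M 1 (uu t)) + T M m S (M 2 (uu t))) := by
  rw [T_succ, M0_uu, add_assoc]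

theorem abs3 (t : ℝ) : |3 * t| = 3 * |t| := by rw [abs_mul]; norm_num

theorem short (m : ℕ) (t : ℝ) (h : |t| * 3 ^ m ≤ 1 / 2) :
    T M m S (uu t) ≤ 1 + ∑ k ∈ range m, LL k := by
  induction m generalizing t with
  | zero => simpa using S_uu_le t
  | succ m ih =>
    rw [T_uu, sum_range_succ]
    rw [pow_succ] at h
    have h1 := ih (3 * t) (by rw [abs3]; linarith)
    have h2 := side_small m t (by linarith)
    linarith

theorem short' (m : ℕ) (t : ℝ) (h : |t| * 3 ^ m ≤ 1 / 2) : T M m S (uu t) ≤ 4 := by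
  have h1 := short m t h
  have h2 : ∑ k ∈ range m, LL k ≤ ∑ k ∈ range (m + 1), LL k := by
    rw [sum_range_succ]; linarith [LL_nonneg m]
  rw [sum_range_succ'] at h2
  linarith [sum_LL m, LL_zero]

theorem beta (t lo hi y1 y2 c1 c2 : ℝ) (h1 : lo ≤ |t|) (h2 : |t| ≤ hi)
    (hy1 : 0 < y1) (hy2 : 0 < y2) (hc1 : 0 < c1) (hc2 : 0 < c2)
    (k1 : ∀ s, lo ≤ s → s ≤ hi → y1 ≤ 7 - 12 * s + 9 * s ^ 2)
    (k2 : ∀ s, lo ≤ s → s ≤ hi → y2 ≤ 7 + 12 * s + 9 * s ^ 2)
    (n1 : 1 ≤ c1 ^ 13 * y1 ^ 19) (n2 : 1 ≤ c2 ^ 13 * y2 ^ 19) :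
    S (M 1 (uu t)) + S (M 2 (uu t)) ≤ c1 + c2 := by
  unfold S
  rw [N_M1_uu, N_M2_uu]
  have a1 := rpow_neg_le hy1 (k1 _ h1 h2) hc1 n1
  have a2 := rpow_neg_le hy2 (k2 _ h1 h2) hc2 n2
  rcases abs_cases t with h | h
  · rw [h.1] at a1 a2; linarith
  · rw [h.1] at a1 a2
    have e1 : 7 - 12 * -t + 9 * (-t) ^ 2 = 7 + 12 * t + 9 * t ^ 2 := by ring
    have e2 : 7 + 12 * -t + 9 * (-t) ^ 2 = 7 - 12 * t + 9 * t ^ 2 := by ring
    rw [e1] at a1; rw [e2] at a2; linarith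

def IH (n : ℕ) : Prop := ∀ m < n, ∀ z : ℝ × ℝ, 0 < N z → T M m S z ≤ 100 * S z

theorem IH.cut {n : ℕ} (H : IH n) (k m : ℕ) (hk : k ≤ m) (hm : m < n) (z : ℝ × ℝ)
    (hz : 0 < N z) : T M m S z ≤ 100 * T M k S z := by
  obtain ⟨j, rfl⟩ := Nat.exists_eq_add_of_le hk
  rw [T_add, ← T_mul]
  exact T_mono M _ _ (fun x => 0 < N x) (fun x i hx => hx.trans_le (N_le_M i x))
    (fun x hx => H j (by omega) x hx) k z hz

theorem IH.side {n : ℕ} (H : IH n) (k m : ℕ) (hk : k ≤ m) (hm : m < n) (t : ℝ) :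
    T M m S (M 1 (uu t)) + T M m S (M 2 (uu t)) ≤
      100 * (T M k S (M 1 (uu t)) + T M k S (M 2 (uu t))) := by
  have h1 := H.cut k m hk hm (M 1 (uu t)) ((N_uu_pos t).trans_le (N_le_M _ _))
  have h2 := H.cut k m hk hm (M 2 (uu t)) ((N_uu_pos t).trans_le (N_le_M _ _))
  linarith

theorem IH.a4 {n : ℕ} (H : IH n) (m : ℕ) (hm : m < n) (t : ℝ) (h : 3 / 2 ≤ |t|) :
    T M m S (uu t) ≤ 100 * (502 / 10000) := by
  refine (H m hm _ (N_uu_pos t)).trans ?_
  have : S (uu t) ≤ 502 / 10000 := by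
    unfold S
    refine rpow_neg_le (y := 31 / 4) (by norm_num) ?_ (by norm_num) (by norm_num)
    rw [N_uu, ← sq_abs]; nlinarith
  linarith

theorem IH.step {n : ℕ} (H : IH n) (m : ℕ) (hm : m ≤ n) (t b lam : ℝ) (hb : 0 ≤ b + lam)
    (h1 : S (M 1 (uu t)) + S (M 2 (uu t)) ≤ b)
    (h2 : ∀ m < n, T M m S (uu (3 * t)) ≤ 1 + 100 * lam) :
    T M m S (uu t) ≤ 1 + 100 * (b + lam) := by
  cases m with
  | zero => have := S_uu_le t; rw [T_zero]; linarith
  | succ m =>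
    rw [T_uu]
    have a1 := H.side 0 m (Nat.zero_le _) hm t
    rw [T_zero, T_zero] at a1
    have a2 := h2 m hm
    linarith

theorem IH.a3 {n : ℕ} (H : IH n) (m : ℕ) (hm : m ≤ n) (t : ℝ) (h : 1 / 2 ≤ |t|)
    (h' : |t| ≤ 3 / 2) : T M m S (uu t) ≤ 1 + 100 * (2697 / 10000) := by
  have b := beta t (1 / 2) (3 / 2) 3 (61 / 4) (2008 / 10000) (187 / 10000) h h'
    (by norm_num) (by norm_num) (by norm_num) (by norm_num)
    (fun s _ _ => by nlinarith [sq_nonneg (3 * s - 2)]) (fun s _ _ => by nlinarith)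
    (by norm_num) (by norm_num)
  have := H.step m hm t _ (502 / 10000) (by norm_num) b (fun m hm => by
    have := H.a4 m hm (3 * t) (by rw [abs3]; linarith)
    linarith)
  linarith

theorem IH.a2 {n : ℕ} (H : IH n) (m : ℕ) (hm : m ≤ n) (t : ℝ) (h : 1 / 6 ≤ |t|)
    (h' : |t| ≤ 1 / 2) : T M m S (uu t) ≤ 1 + 100 * (4872 / 10000) := by
  have b := beta t (1 / 6) (1 / 2) (13 / 4) (37 / 4) (1787 / 10000) (388 / 10000) h h'
    (by norm_num) (by norm_num) (by norm_num) (by norm_num)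
    (fun s _ _ => by nlinarith) (fun s _ _ => by nlinarith)
    (by norm_num) (by norm_num)
  have := H.step m hm t _ (2697 / 10000) (by norm_num) b (fun m hm =>
    H.a3 m hm.le (3 * t) (by rw [abs3]; linarith) (by rw [abs3]; linarith))
  linarith

theorem IH.a1 {n : ℕ} (H : IH n) (m : ℕ) (hm : m ≤ n) (t : ℝ) (h : 1 / 18 ≤ |t|)
    (h' : |t| ≤ 1 / 6) : T M m S (uu t) ≤ 1 + 100 * (6266 / 10000) := by
  have b := beta t (1 / 18) (1 / 6) (21 / 4) (277 / 36) (887 / 10000) (507 / 10000) h h'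
    (by norm_num) (by norm_num) (by norm_num) (by norm_num)
    (fun s _ _ => by nlinarith) (fun s _ _ => by nlinarith)
    (by norm_num) (by norm_num)
  have := H.step m hm t _ (4872 / 10000) (by norm_num) b (fun m hm =>
    H.a2 m hm.le (3 * t) (by rw [abs3]; linarith) (by rw [abs3]; linarith))
  linarith

theorem IH.long {n : ℕ} (H : IH n) (J m : ℕ) (hJ : J + 1 ≤ m) (hm : m ≤ n) (t : ℝ)
    (h : 1 / 18 ≤ |t| * 3 ^ J) (h' : |t| * 3 ^ J ≤ 1 / 6) :
    T M m S (uu t) ≤ 1 + 100 * (6266 / 10000 + ∑ k ∈ range J, LL (k + 1)) := by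
  induction J generalizing m t with
  | zero =>
    simp only [pow_zero, mul_one] at h h'
    simpa using H.a1 m hm t h h'
  | succ J ih =>
    obtain ⟨m, rfl⟩ : ∃ m', m = m' + 1 := ⟨m - 1, by omega⟩
    rw [T_uu, sum_range_succ]
    have a1 := H.side (J + 1) m (by omega) hm t
    have a2 := side_small (J + 1) t h'
    rw [pow_succ] at h h'
    have a3 := ih m (by omega) (by omega) (3 * t) (by rw [abs3]; linarith) (by rw [abs3]; linarith)
    linarith

theorem IH.small {n : ℕ} (H : IH n) (t : ℝ) (h : |t| ≤ 1 / 18) :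
    T M n S (uu t) ≤ 1 + 100 * (9596 / 10000) := by
  by_cases hs : |t| * 3 ^ n ≤ 1 / 2
  · linarith [short' n t hs]
  · rw [not_le] at hs
    have hex : ∃ J : ℕ, 1 / 18 < |t| * 3 ^ J := ⟨n, by linarith⟩
    classical
    have h1 := Nat.find_spec hex
    have h2 : |t| * 3 ^ Nat.find hex ≤ 1 / 6 := by
      rcases Nat.eq_zero_or_pos (Nat.find hex) with h0 | h0
      · rw [h0]; linarith
      · obtain ⟨j, hj⟩ : ∃ j, Nat.find hex = j + 1 := ⟨Nat.find hex - 1, by omega⟩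
        have h3 := Nat.find_min hex (m := j) (by omega)
        rw [not_lt] at h3
        rw [hj, pow_succ]
        linarith
    have h3 : Nat.find hex + 1 ≤ n := by
      by_contra h4
      have h5 : (3 : ℝ) ^ n ≤ 3 ^ Nat.find hex := pow_le_pow_right₀ (by norm_num) (by omega)
      have h6 := mul_le_mul_of_nonneg_left h5 (abs_nonneg t)
      linarith
    have h4 := H.long _ n h3 le_rfl t h1.le h2
    linarith [sum_LL (Nat.find hex)]

theorem S_uu_ge (t y c : ℝ) (hc : 0 < c) (h : 1 + 3 * t ^ 2 ≤ y) (hn : y ^ 19 ≤ c ^ 13) :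
    c⁻¹ ≤ S (uu t) := by
  unfold S
  rw [N_uu, Real.rpow_neg (by positivity)]
  exact inv_anti₀ (Real.rpow_pos_of_pos (by positivity) _) (rpow_pos_le (by positivity) h hc hn)

theorem IH.unit {n : ℕ} (H : IH n) (t : ℝ) (h : |t| ≤ 1 / 3) :
    T M n S (uu t) ≤ 100 * S (uu t) := by
  have h0 := abs_nonneg t
  rcases le_total |t| (1 / 18) with h1 | h1
  · have a1 := H.small t h1
    have a2 := S_uu_ge t (109 / 108) (10137 / 10000) (by norm_num)
      (by rw [← sq_abs]; nlinarith) (by norm_num)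
    norm_num at a1 a2 ⊢
    linarith
  · have a2 := S_uu_ge t (4 / 3) (1523 / 1000) (by norm_num)
      (by rw [← sq_abs]; nlinarith) (by norm_num)
    have a1 : T M n S (uu t) ≤ 1 + 100 * (6266 / 10000) := by
      rcases le_total |t| (1 / 6) with h2 | h2
      · exact H.a1 n le_rfl t h1 h2
      · linarith [H.a2 n le_rfl t h2 (by linarith)]
    norm_num at a1 a2 ⊢
    linarith

theorem IH.sector {n : ℕ} (H : IH n) (z : ℝ × ℝ) (hz : 0 < N z)
    (h : 9 * z.1 ^ 2 ≤ (z.1 + 2 * z.2) ^ 2) : T M n S z ≤ 100 * S z := by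
  obtain ⟨a, b⟩ := z
  simp only [N] at hz h
  have hc : a + 2 * b ≠ 0 := by
    intro h0
    rw [h0] at h
    have ha : a = 0 := by nlinarith [sq_nonneg a]
    have hb : b = 0 := by linarith
    rw [ha, hb] at hz
    norm_num at hz
  have e : (a, b) = ((a + 2 * b) / 2) • uu (a / (a + 2 * b)) := by
    simp only [uu, Prod.smul_mk, smul_eq_mul, Prod.mk.injEq]
    have hm : (a + 2 * b) * (a / (a + 2 * b)) = a := mul_div_cancel₀ a hc
    constructor
    · linear_combination -hm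
    · linear_combination (1 / 2) * hm
  have ht : |a / (a + 2 * b)| ≤ 1 / 3 := by
    refine abs_le.2 (abs_le_of_sq_le_sq' ?_ (by norm_num))
    rw [div_pow, div_le_iff₀ (by positivity)]
    linarith
  rw [e, T_S_smul, S_smul]
  have h1 := H.unit _ ht
  have h2 : 0 ≤ (((a + 2 * b) / 2) ^ 2) ^ (-sg) := Real.rpow_nonneg (sq_nonneg _) _
  nlinarith [mul_le_mul_of_nonneg_left h1 h2]

theorem core (n : ℕ) : ∀ z : ℝ × ℝ, 0 < N z → T M n S z ≤ 100 * S z := by
  induction n using Nat.strong_induction_on with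
  | _ n H =>
    intro z hz
    have H' : IH n := H
    by_cases c0 : 9 * z.1 ^ 2 ≤ (z.1 + 2 * z.2) ^ 2
    · exact H'.sector z hz c0
    by_cases c1 : 9 * (rot z).1 ^ 2 ≤ ((rot z).1 + 2 * (rot z).2) ^ 2
    · have := H'.sector (rot z) (by rw [N_rot]; exact hz) c1
      rwa [T_M_rot S S_rot, S_rot] at this
    have c2 : 9 * (rot (rot z)).1 ^ 2 ≤ ((rot (rot z)).1 + 2 * (rot (rot z)).2) ^ 2 := by
      obtain ⟨a, b⟩ := z
      simp only [rot, not_le] at c0 c1 ⊢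
      have d0 : (b - a) * (2 * a + b) < 0 := by nlinarith
      have d1 : 0 < (a + 2 * b) * (2 * a + b) := by nlinarith
      have d2 : 0 ≤ (a - b) * (a + 2 * b) := by
        rcases mul_pos_iff.1 d1 with ⟨p, q⟩ | ⟨p, q⟩
        · have : 0 < a - b := by nlinarith
          positivity
        · have : a - b < 0 := by nlinarith
          exact (mul_pos_of_neg_of_neg this p).le
      nlinarith
    have := H'.sector (rot (rot z)) (by rw [N_rot, N_rot]; exact hz) c2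
    rwa [T_M_rot S S_rot, S_rot, T_M_rot S S_rot, S_rot] at this

end Pool.Agent.H951Z
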