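import Pool.Agent.H951Z.Pair

set_option autoImplicit false

namespace Pool.Agent.H951Z

open Finset

/-- Coordinates modulo constants. -/
def crd (v : Fin 3 → ℝ) : ℝ × ℝ := (2 * v 0 - v 1 - v 2, 2 * v 1 - v 0 - v 2)

theorem foldl_pair {α : Type} (f : Fin 3 → α → α) (l : List (Fin 3)) (x y : α) :
    l.foldl (fun (v : α × α) i => (f i v.1, f i v.2)) (x, y) =
      (l.foldl (fun v i => f i v) x, l.foldl (fun v i => f i v) y) := by
  induction l generalizing x y with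
  | nil => rfl
  | cons i l ih => simp only [List.foldl_cons, ih]

theorem strichartz_tse :
    ∀ (A : Fin 3 → Matrix (Fin 3) (Fin 3) ℝ),
      A = ![!![1, 0, 0; 2/5, 2/5, 1/5; 2/5, 1/5, 2/5],
            !![2/5, 2/5, 1/5; 0, 1, 0; 1/5, 2/5, 2/5],
            !![2/5, 1/5, 2/5; 1/5, 2/5, 2/5; 0, 0, 1]] →
    ∀ (E : (Fin 3 → ℝ) → ℝ),
      (∀ v : Fin 3 → ℝ, E v = (v 0 - v 1) ^ 2 + (v 1 - v 2) ^ 2 + (v 0 - v 2) ^ 2) →
    ∀ (ν : (Fin 3 → ℝ) → (n : ℕ) → (Fin n → Fin 3) → ℝ),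
      (∀ (x : Fin 3 → ℝ) (n : ℕ) (w : Fin n → Fin 3),
        ν x n w = (5/3 : ℝ) ^ n *
          E ((List.ofFn w).foldl (fun v i => (A i).mulVec v) x) / E x) →
    ∀ x y : Fin 3 → ℝ, E x ≠ 0 → E y ≠ 0 →
    ∀ p : ℝ, 1 < p → p < Real.log 15 / Real.log 9 →
      ∃ C : ℝ, ∀ n : ℕ,
        ∑ w : Fin n → Fin 3, (ν x n w) ^ p * (ν y n w) ^ (1 - p) ≤ C := by
  intro A hA E hE ν hν x y hx hy p hp1 hp2
  have hEN : ∀ v, E v = 2 / 3 * N (crd v) := by
    intro v; rw [hE]; simp only [N, crd]; ring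
  have hcrd : ∀ i v, crd ((A i).mulVec v) = (1 / 5 : ℝ) • M i (crd v) := by
    intro i v
    subst hA
    fin_cases i <;>
      simp [crd, M, Matrix.mulVec, dotProduct, Fin.sum_univ_three] <;> constructor <;> ring
  have hfold : ∀ (l : List (Fin 3)) v, crd (l.foldl (fun v i => (A i).mulVec v) v) =
      (1 / 5 : ℝ) ^ l.length • l.foldl (fun v i => M i v) (crd v) := by
    intro l
    induction l using List.reverseRecOn with
    | nil => intro v; simp
    | append_singleton l i ih =>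
      intro v
      rw [List.foldl_append, List.foldl_append, List.foldl_cons, List.foldl_nil, List.foldl_cons,
        List.foldl_nil, hcrd, ih, M_smul, smul_smul, List.length_append, List.length_singleton,
        pow_succ, mul_comm]
  have hNx : 0 < N (crd x) := by
    refine lt_of_le_of_ne (N_nonneg _) fun h => hx ?_
    rw [hEN, ← h, mul_zero]
  have hNy : 0 < N (crd y) := by
    refine lt_of_le_of_ne (N_nonneg _) fun h => hy ?_
    rw [hEN, ← h, mul_zero]
  have hν' : ∀ (v : Fin 3 → ℝ) (n : ℕ) (w : Fin n → Fin 3), 0 < N (crd v) → ν v n w =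
      ((15 : ℝ) ^ n)⁻¹ * (N (crd v))⁻¹ * N ((List.ofFn w).foldl (fun v i => M i v) (crd v)) := by
    intro v n w hv
    rw [hν, hEN, hEN, hfold, N_smul, List.length_ofFn]
    have e : (15 : ℝ) ^ n = (5 ^ n) ^ 2 / (5 / 3) ^ n := by
      rw [← pow_mul, mul_comm n 2, pow_mul, ← div_pow]; norm_num
    rw [e, one_div, inv_pow]
    field_simp
  have h9 : (9 : ℝ) ^ p < 15 := by
    have hl : 0 < Real.log 9 := Real.log_pos (by norm_num)
    rw [lt_div_iff₀ hl] at hp2
    rw [Real.rpow_def_of_pos (by norm_num), ← Real.exp_log (by norm_num : (0 : ℝ) < 15)]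
    exact Real.exp_lt_exp.2 (by linarith)
  obtain ⟨C, hC⟩ := pair_bound p hp1 h9 (crd x, crd y) hNy
  refine ⟨(N (crd x))⁻¹ ^ p * (N (crd y))⁻¹ ^ (1 - p) * C, fun n => ?_⟩
  have h15 : (0 : ℝ) < (15 ^ n)⁻¹ := by positivity
  have hterm : ∀ w : Fin n → Fin 3, (ν x n w) ^ p * (ν y n w) ^ (1 - p) =
      (N (crd x))⁻¹ ^ p * (N (crd y))⁻¹ ^ (1 - p) * (15 ^ n)⁻¹ *
        HH p ((List.ofFn w).foldl (fun v i => MM i v) (crd x, crd y)) := by
    intro w
    have e1 : (List.ofFn w).foldl (fun v i => MM i v) (crd x, crd y) =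
        ((List.ofFn w).foldl (fun v i => M i v) (crd x),
          (List.ofFn w).foldl (fun v i => M i v) (crd y)) := foldl_pair M _ _ _
    rw [e1, hν' x n w hNx, hν' y n w hNy]
    unfold HH
    rw [Real.mul_rpow (by positivity) (N_nonneg _), Real.mul_rpow (by positivity) (N_nonneg _),
      Real.mul_rpow h15.le (by positivity), Real.mul_rpow h15.le (by positivity)]
    have e : ((15 ^ n : ℝ)⁻¹) ^ p * ((15 ^ n : ℝ)⁻¹) ^ (1 - p) = (15 ^ n)⁻¹ := by
      rw [← Real.rpow_add h15]; simp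
    generalize ((15 ^ n : ℝ)⁻¹) = t at e ⊢
    simp only
    linear_combination ((N (crd x))⁻¹ ^ p * (N (crd y))⁻¹ ^ (1 - p) *
      (N (List.foldl (fun v i => M i v) (crd x) (List.ofFn w)) ^ p *
        N (List.foldl (fun v i => M i v) (crd y) (List.ofFn w)) ^ (1 - p))) * e
  simp only [hterm]
  rw [← mul_sum, T_words MM (HH p) n (crd x, crd y), mul_assoc _ ((15 ^ n : ℝ)⁻¹)]
  refine mul_le_mul_of_nonneg_left ?_ (by positivity)
  rw [← div_eq_inv_mul]
  exact hC n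

end Pool.Agent.H951Z
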