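import Pool.Agent.H951Z.Tree

set_option autoImplicit false

namespace Pool.Agent.H951Z

open Finset

/-- The distorted weight. -/
noncomputable def phi (t : ℝ) : ℝ := ((Real.sqrt t - 1 / 2) ^ 2) ^ (-sg)

theorem phi_nonneg (t : ℝ) : 0 ≤ phi t := Real.rpow_nonneg (sq_nonneg _) _

def bsU (P : ℕ → Bool) : ℕ → ℕ → ℕ → ℕ
  | 0, _, hi => hi
  | f + 1, lo, hi => if P ((lo + hi) / 2) then bsU P f lo ((lo + hi) / 2)
      else bsU P f ((lo + hi) / 2) hi

def bsL (P : ℕ → Bool) : ℕ → ℕ → ℕ → ℕ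
  | 0, lo, _ => lo
  | f + 1, lo, hi => if P ((lo + hi) / 2) then bsL P f ((lo + hi) / 2) hi
      else bsL P f lo ((lo + hi) / 2)

theorem bsU_spec (P : ℕ → Bool) (f lo hi : ℕ) (h : P hi = true) : P (bsU P f lo hi) = true := by
  induction f generalizing lo hi with
  | zero => exact h
  | succ f ih =>
    unfold bsU
    split_ifs with h1
    · exact ih _ _ h1
    · exact ih _ _ h

theorem bsL_spec (P : ℕ → Bool) (f lo hi : ℕ) (h : P lo = true) : P (bsL P f lo hi) = true := by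
  induction f generalizing lo hi with
  | zero => exact h
  | succ f ih =>
    unfold bsL
    split_ifs with h1
    · exact ih _ _ h1
    · exact ih _ _ h

def rr (n : ℕ) : ℕ := bsL (fun r => decide ((r + 150) ^ 2 ≤ 10000 * n)) 13 0 4096

def cc (n : ℕ) : ℕ :=
  bsU (fun c => decide (10 ^ 154 ≤ (c + 1) ^ 13 * (rr n + 100) ^ 38)) 21 0 1000000 + 1

theorem phi_aux (n r c : ℝ) (hr : 0 ≤ r) (hc : 0 < c) (h1 : (r + 150) ^ 2 ≤ 10000 * n)
    (h2 : 1000000 ^ 13 * 100 ^ 38 ≤ c ^ 13 * (r + 100) ^ 38) : phi n ≤ c / 1000000 := by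
  have h3 : (r + 150) / 100 ≤ Real.sqrt n := by
    apply Real.le_sqrt_of_sq_le
    rw [div_pow]
    rw [div_le_iff₀ (by norm_num)]
    linarith
  have h4 : 0 < ((r + 100) / 100) ^ 2 := by clear h2; positivity
  have h5 : 0 < c / 1000000 := by clear h2; positivity
  have h6 : ((r + 100) / 100) ^ 2 ≤ (Real.sqrt n - 1 / 2) ^ 2 := by
    clear h2
    apply pow_le_pow_left₀ (by positivity)
    linarith
  have h7 : (0 : ℝ) < 1000000 ^ 13 * 100 ^ 38 := by norm_num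
  have h8 : 1 ≤ (c / 1000000) ^ 13 * (((r + 100) / 100) ^ 2) ^ 19 := by
    rw [← pow_mul, div_pow, div_pow, div_mul_div_comm, one_le_div h7]
    exact h2
  unfold phi
  exact rpow_neg_le h4 h6 h5 h8

theorem rr_spec (n : ℕ) (hn : 13 ≤ n) : (rr n + 150) ^ 2 ≤ 10000 * n := by
  have h0 : (0 + 150) ^ 2 ≤ 10000 * n := by omega
  exact of_decide_eq_true
    (bsL_spec (fun r => decide ((r + 150) ^ 2 ≤ 10000 * n)) 13 0 4096 (decide_eq_true h0))

theorem cc_aux (r : ℕ) : 10 ^ 154 ≤ (1000000 + 1) ^ 13 * (r + 100) ^ 38 := by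
  have h1 : 100 ^ 38 ≤ (r + 100) ^ 38 := Nat.pow_le_pow_left (Nat.le_add_left _ _) _
  have h2 : 10 ^ 154 ≤ (1000000 + 1) ^ 13 * 100 ^ 38 := by norm_num
  exact h2.trans (Nat.mul_le_mul_left _ h1)

theorem cc_spec (n : ℕ) : 10 ^ 154 ≤ (cc n) ^ 13 * (rr n + 100) ^ 38 :=
  of_decide_eq_true
    (bsU_spec (fun c => decide (10 ^ 154 ≤ (c + 1) ^ 13 * (rr n + 100) ^ 38)) 21 0 1000000
      (decide_eq_true (cc_aux (rr n))))

theorem cc_pos (n : ℕ) : 0 < cc n := Nat.succ_pos _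

theorem cast_aux (c r : ℕ) (h : 10 ^ 154 ≤ c ^ 13 * (r + 100) ^ 38) :
    (1000000 : ℝ) ^ 13 * 100 ^ 38 ≤ (c : ℝ) ^ 13 * ((r : ℝ) + 100) ^ 38 := by
  have h1 : ((10 ^ 154 : ℕ) : ℝ) ≤ ((c ^ 13 * (r + 100) ^ 38 : ℕ) : ℝ) := Nat.cast_le.2 h
  rw [Nat.cast_mul, Nat.cast_pow, Nat.cast_pow, Nat.cast_pow, Nat.cast_add] at h1
  have h2 : (1000000 : ℝ) ^ 13 * 100 ^ 38 = ((10 : ℕ) : ℝ) ^ 154 := by norm_num
  rw [h2]
  exact h1

theorem phi_le_cc (n : ℕ) (hn : 13 ≤ n) : phi n ≤ (cc n : ℝ) / 1000000 := by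
  refine phi_aux n (rr n) (cc n) (Nat.cast_nonneg _) (Nat.cast_pos.2 (cc_pos n)) ?_
    (cast_aux _ _ (cc_spec n))
  have h1 := rr_spec n hn
  generalize rr n = r at h1
  exact_mod_cast h1

def nn (p q : ℕ) : ℕ := p ^ 2 + p * q + q ^ 2

def cond (s p : ℕ) : Prop :=
  1 ≤ p ∧ p < s ∧ Nat.Coprime p (s - p) ∧ (p + 2 * (s - p)) % 3 ≠ 0 ∧ 13 ≤ nn p (s - p)

instance (s p : ℕ) : Decidable (cond s p) := by unfold cond; infer_instance

noncomputable def hh (s p : ℕ) : ℝ := if cond s p then phi (nn p (s - p) : ℕ) else 0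

theorem hh_nonneg (s p : ℕ) : 0 ≤ hh s p := by
  unfold hh; split_ifs
  · exact phi_nonneg _
  · exact le_rfl

theorem small_nat :
    ∑ s ∈ range 21, ∑ p ∈ range s, (if cond s p then cc (nn p (s - p)) else 0) ≤ 223800 := by
  decide +kernel

theorem small_real : ∑ s ∈ range 21, ∑ p ∈ range s, hh s p ≤ 2238 / 10000 := by
  have h := small_nat
  have h' : ((∑ s ∈ range 21, ∑ p ∈ range s,
      (if cond s p then cc (nn p (s - p)) else 0) : ℕ) : ℝ) ≤ 223800 := by exact_mod_cast h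
  have h2 : ∑ s ∈ range 21, ∑ p ∈ range s, hh s p ≤ ∑ s ∈ range 21, ∑ p ∈ range s,
      (((if cond s p then cc (nn p (s - p)) else 0 : ℕ) : ℝ) / 1000000) := by
    refine sum_le_sum fun s _ => sum_le_sum fun p _ => ?_
    unfold hh
    split_ifs with hc
    · exact phi_le_cc _ hc.2.2.2.2
    · simp
  refine h2.trans ?_
  push_cast at h'
  simp only [← sum_div]
  rw [div_le_iff₀ (by norm_num)]
  push_cast
  linarith

theorem hh_le (s p : ℕ) (hs : 2 ≤ s) : hh s p ≤ (3 / 4 * ((s : ℝ) - 1) ^ 2) ^ (-sg) := by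
  have hs' : (2 : ℝ) ≤ s := by exact_mod_cast hs
  unfold hh
  split_ifs with hc
  · obtain ⟨h1, h2, -, -, -⟩ := hc
    obtain ⟨q, rfl⟩ : ∃ q, s = p + q := ⟨s - p, by omega⟩
    rw [Nat.add_sub_cancel_left]
    unfold phi
    have hpos : (0 : ℝ) < 3 / 4 * (((p + q : ℕ) : ℝ) - 1) ^ 2 := by
      have : (0 : ℝ) < ((p + q : ℕ) : ℝ) - 1 := by linarith
      positivity
    refine Real.rpow_le_rpow_of_nonpos hpos ?_ (by unfold sg; norm_num)
    set S : ℝ := ((p + q : ℕ) : ℝ) with hS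
    have h3 : 3 / 4 * S ^ 2 ≤ ((nn p q : ℕ) : ℝ) := by
      rw [hS]; unfold nn; push_cast; nlinarith [sq_nonneg ((p : ℝ) - q)]
    set u := Real.sqrt ((nn p q : ℕ) : ℝ) with hu
    have hu0 : 0 ≤ u := Real.sqrt_nonneg _
    have hu2 : u ^ 2 = ((nn p q : ℕ) : ℝ) := Real.sq_sqrt (Nat.cast_nonneg _)
    set r := Real.sqrt 3 with hr
    have hr0 : 0 ≤ r := Real.sqrt_nonneg _
    have hr2 : r ^ 2 = 3 := Real.sq_sqrt (by norm_num)
    have hr1 : 1 ≤ r := by nlinarith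
    have h4 : r / 2 * S ≤ u := by
      apply Real.le_sqrt_of_sq_le
      rw [mul_pow, div_pow, hr2]
      linarith
    have h5 : r / 2 * (S - 1) ≤ u - 1 / 2 := by nlinarith
    have h6 : 0 ≤ r / 2 * (S - 1) := by
      have : 0 ≤ S - 1 := by linarith
      positivity
    calc 3 / 4 * (S - 1) ^ 2 = (r / 2 * (S - 1)) ^ 2 := by rw [mul_pow, div_pow, hr2]; norm_num
      _ ≤ (u - 1 / 2) ^ 2 := pow_le_pow_left₀ h6 h5 2
  · positivity

end Pool.Agent.H951Z
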