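import Pool.Agent.H951Z.Lattice

set_option autoImplicit false

namespace Pool.Agent.H951Z

open Finset

theorem telescope (m : ℝ) (hm : 1 < m) :
    12 / 13 * m ^ (-(25 / 13) : ℝ) ≤ (m - 1) ^ (-(12 / 13) : ℝ) - m ^ (-(12 / 13) : ℝ) := by
  have hm0 : 0 < m := by linarith
  have hm1 : 0 < m - 1 := by linarith
  have h1 : m - 1 = m * (1 + (-m⁻¹)) := by field_simp; ring
  have hinv : 0 < m⁻¹ := inv_pos.2 hm0
  have hinv1 : m⁻¹ < 1 := inv_lt_one_of_one_lt₀ hm
  have h2 : (1 + (-m⁻¹)) ^ (12 / 13 : ℝ) ≤ 1 + 12 / 13 * (-m⁻¹) :=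
    rpow_one_add_le_one_add_mul_self (by linarith) (by norm_num) (by norm_num)
  have h3 : 0 < (1 + (-m⁻¹)) ^ (12 / 13 : ℝ) := Real.rpow_pos_of_pos (by linarith) _
  have h4 : 1 + 12 / 13 * m⁻¹ ≤ (1 + (-m⁻¹)) ^ (-(12 / 13) : ℝ) := by
    rw [Real.rpow_neg (by linarith), le_inv_comm₀ (by positivity) h3]
    refine h2.trans ?_
    rw [inv_eq_one_div (1 + 12 / 13 * m⁻¹), le_div_iff₀ (by positivity)]
    nlinarith [sq_nonneg m⁻¹]
  have h5 : m ^ (-(25 / 13) : ℝ) = m ^ (-(12 / 13) : ℝ) * m⁻¹ := by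
    rw [← Real.rpow_neg_one, ← Real.rpow_add hm0]; norm_num
  have h6 : 0 < m ^ (-(12 / 13) : ℝ) := Real.rpow_pos_of_pos hm0 _
  rw [h1, Real.mul_rpow hm0.le (by linarith), h5]
  nlinarith [mul_le_mul_of_nonneg_left h4 h6.le]

theorem shell_le (s : ℕ) (hs : 2 ≤ s) :
    ∑ p ∈ range s, hh s p ≤ 1523 / 1000 * ((s : ℝ) - 1) ^ (-(25 / 13) : ℝ) := by
  obtain ⟨m, rfl⟩ : ∃ m, s = m + 1 := ⟨s - 1, by omega⟩
  have hm : (1 : ℝ) ≤ m := by exact_mod_cast (by omega : 1 ≤ m)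
  rw [sum_range_succ']
  have h0 : hh (m + 1) 0 = 0 := by
    unfold hh
    rw [if_neg]
    intro h
    exact absurd h.1 (by norm_num)
  have h1 : ∑ p ∈ range m, hh (m + 1) (p + 1) ≤
      ∑ _p ∈ range m, (3 / 4 * (((m + 1 : ℕ) : ℝ) - 1) ^ 2) ^ (-sg) :=
    sum_le_sum fun p _ => hh_le _ _ hs
  rw [h0, add_zero]
  refine h1.trans ?_
  rw [sum_const, card_range, nsmul_eq_mul]
  have e : ((m + 1 : ℕ) : ℝ) - 1 = m := by push_cast; ring
  rw [e, Real.mul_rpow (by norm_num) (by positivity)]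
  have h2 : ((3 : ℝ) / 4) ^ (-sg) ≤ 1523 / 1000 :=
    rpow_neg_le (y := 3 / 4) (by norm_num) le_rfl (by norm_num) (by norm_num)
  have h3 : (m : ℝ) * ((m : ℝ) ^ 2) ^ (-sg) = (m : ℝ) ^ (-(25 / 13) : ℝ) := by
    rw [← Real.rpow_natCast, ← Real.rpow_mul (by linarith)]
    nth_rewrite 1 [← Real.rpow_one (m : ℝ)]
    rw [← Real.rpow_add (by linarith)]
    congr 1
    unfold sg; norm_num
  have h4 : 0 ≤ (m : ℝ) ^ (-(25 / 13) : ℝ) := Real.rpow_nonneg (by linarith) _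
  calc (m : ℝ) * (((3 : ℝ) / 4) ^ (-sg) * ((m : ℝ) ^ 2) ^ (-sg))
      = ((3 : ℝ) / 4) ^ (-sg) * ((m : ℝ) * ((m : ℝ) ^ 2) ^ (-sg)) := by ring
    _ ≤ _ := by rw [h3]; exact mul_le_mul_of_nonneg_right h2 h4

theorem all_shells_aux (K : ℕ) :
    ∑ s ∈ range (21 + K), ∑ p ∈ range s, hh s p ≤ 2238 / 10000 + 1523 / 1000 * (13 / 12) *
      ((19 : ℝ) ^ (-(12 / 13) : ℝ) - ((19 : ℝ) + K) ^ (-(12 / 13) : ℝ)) := by
  induction K with
  | zero => simpa using small_real
  | succ K ih =>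
    rw [← add_assoc, sum_range_succ]
    have h1 := shell_le (21 + K) (by omega)
    have hK : (0 : ℝ) ≤ K := Nat.cast_nonneg K
    have h2 := telescope (20 + K) (by linarith)
    have e1 : ((21 + K : ℕ) : ℝ) - 1 = 20 + K := by push_cast; ring
    have e2 : (20 + K : ℝ) - 1 = 19 + K := by ring
    have e3 : (19 : ℝ) + ((K + 1 : ℕ) : ℝ) = 20 + K := by push_cast; ring
    rw [e1] at h1
    rw [e2] at h2
    rw [e3]
    linarith

theorem all_shells (K : ℕ) : ∑ s ∈ range K, ∑ p ∈ range s, hh s p ≤ 333 / 1000 := by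
  have h1 : ∑ s ∈ range K, ∑ p ∈ range s, hh s p ≤
      ∑ s ∈ range (21 + K), ∑ p ∈ range s, hh s p :=
    sum_le_sum_of_subset_of_nonneg (range_subset_range.2 (by omega))
      fun s _ _ => sum_nonneg fun p _ => hh_nonneg s p
  have h2 := all_shells_aux K
  have h3 : 0 ≤ ((19 : ℝ) + K) ^ (-(12 / 13) : ℝ) := Real.rpow_nonneg (by positivity) _
  have h4 : (19 : ℝ) ^ (-(12 / 13) : ℝ) ≤ 661 / 10000 := by
    have h5 : ((19 : ℝ) ^ (-(12 / 13) : ℝ)) ^ 13 = ((19 : ℝ) ^ 12)⁻¹ := by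
      rw [← Real.rpow_natCast, ← Real.rpow_mul (by norm_num), ← Real.rpow_natCast,
        ← Real.rpow_neg (by norm_num)]
      norm_num
    have h6 : ((19 : ℝ) ^ (-(12 / 13) : ℝ)) ^ 13 ≤ (661 / 10000) ^ 13 := by
      rw [h5]; norm_num
    exact le_of_pow_le_pow_left₀ (by norm_num) (by norm_num) h6
  linarith

/-- Lattice vectors of the right class, primitive. -/
def Good (z : ℤ × ℤ) : Prop := (z.1 + 2 * z.2) % 3 = 2 ∧ IsCoprime z.1 z.2 ∧ 7 ≤ N z

noncomputable def GZ (z : ℤ × ℤ) : ℝ := phi ((N z : ℤ) : ℝ)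

theorem same_sign (V : Finset (ℤ × ℤ))
    (hV : ∀ z ∈ V, Good z ∧ 13 ≤ N z ∧ 0 < z.1 * z.2) : ∑ z ∈ V, GZ z ≤ 333 / 1000 := by
  classical
  let e : ℤ × ℤ → (Σ _ : ℕ, ℕ) := fun z => ⟨z.1.natAbs + z.2.natAbs, z.1.natAbs⟩
  have hsign : ∀ z : ℤ × ℤ, 0 < z.1 * z.2 → (0 < z.1 ∧ 0 < z.2) ∨ (z.1 < 0 ∧ z.2 < 0) :=
    fun z h => mul_pos_iff.1 h
  have hinj : Set.InjOn e V := by
    intro z hz z' hz' h
    obtain ⟨⟨h1, -, -⟩, -, h2⟩ := hV z hz
    obtain ⟨⟨h1', -, -⟩, -, h2'⟩ := hV z' hz'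
    simp only [e, Sigma.mk.injEq, heq_eq_eq] at h
    obtain ⟨h3, h4⟩ := h
    have := hsign z h2
    have := hsign z' h2'
    ext <;> omega
  have hval : ∀ z ∈ V, GZ z = hh (e z).1 (e z).2 := by
    intro z hz
    obtain ⟨⟨h1, h2, -⟩, h3, h4⟩ := hV z hz
    have h5 := hsign z h4
    have hN : N z = (nn z.1.natAbs z.2.natAbs : ℕ) := by
      unfold N nn
      push_cast
      rcases h5 with h5 | h5
      · rw [abs_of_pos h5.1, abs_of_pos h5.2]
      · rw [abs_of_neg h5.1, abs_of_neg h5.2]; ring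
    simp only [e]
    unfold hh
    rw [Nat.add_sub_cancel_left, if_pos]
    · unfold GZ; rw [hN]; norm_cast
    · refine ⟨by omega, by omega, ?_, ?_, ?_⟩
      · rw [Nat.add_sub_cancel_left]
        exact Int.isCoprime_iff_nat_coprime.1 h2
      · omega
      · rw [Nat.add_sub_cancel_left]
        rw [hN] at h3
        exact_mod_cast h3
  obtain ⟨K, hK⟩ : ∃ K, ∀ z ∈ V, (e z).1 < K := by
    refine ⟨V.sup (fun z => (e z).1) + 1, fun z hz => ?_⟩
    have := Finset.le_sup (f := fun z => (e z).1) hz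
    exact Nat.lt_succ_of_le this
  calc ∑ z ∈ V, GZ z = ∑ z ∈ V, hh (e z).1 (e z).2 := sum_congr rfl hval
    _ = ∑ x ∈ V.image e, hh x.1 x.2 := by rw [sum_image hinj]
    _ ≤ ∑ x ∈ (range K).sigma (fun s => range s), hh x.1 x.2 := by
      refine sum_le_sum_of_subset_of_nonneg ?_ fun x _ _ => hh_nonneg _ _
      intro x hx
      obtain ⟨z, hz, rfl⟩ := mem_image.1 hx
      rw [mem_sigma, mem_range, mem_range]
      refine ⟨hK z hz, ?_⟩
      obtain ⟨-, -, h4⟩ := hV z hz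
      have h5 := hsign z h4
      simp only [e]
      omega
    _ = ∑ s ∈ range K, ∑ p ∈ range s, hh s p := by rw [sum_sigma]
    _ ≤ _ := all_shells K

theorem Good.ne {z : ℤ × ℤ} (h : Good z) : z.1 ≠ 0 ∧ z.2 ≠ 0 ∧ z.1 + z.2 ≠ 0 := by
  obtain ⟨a, b⟩ := z
  obtain ⟨-, h2, h3⟩ := h
  simp only [N] at h2 h3 ⊢
  refine ⟨?_, ?_, ?_⟩
  · rintro rfl
    rcases Int.isUnit_iff.1 (isCoprime_zero_left.1 h2) with rfl | rfl <;> norm_num at h3
  · rintro rfl
    rcases Int.isUnit_iff.1 (isCoprime_zero_right.1 h2) with rfl | rfl <;> norm_num at h3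
  · intro h
    obtain rfl : a = -b := by omega
    rcases Int.isUnit_iff.1 (isCoprime_self.1 (IsCoprime.neg_left_iff _ _ |>.1 h2)) with
      rfl | rfl <;> norm_num at h3

theorem Good.rot {z : ℤ × ℤ} (h : Good z) : Good (rot z) := by
  obtain ⟨h1, h2, h3⟩ := h
  refine ⟨?_, ?_, ?_⟩
  · simp only [H951Z.rot]; omega
  · simp only [H951Z.rot]
    obtain ⟨u, v, huv⟩ := h2
    exact ⟨-v, u - v, by linear_combination huv⟩
  · rw [N_rot]; exact h3

theorem GZ_rot (z : ℤ × ℤ) : GZ (rot z) = GZ z := by unfold GZ; rw [N_rot]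

theorem rot_inj : Function.Injective (rot : ℤ × ℤ → ℤ × ℤ) := by
  intro z z' h
  simp only [rot, Prod.mk.injEq] at h
  ext <;> omega

theorem lattice_bound (V : Finset (ℤ × ℤ)) (hV : ∀ z ∈ V, Good z ∧ 13 ≤ N z) :
    ∑ z ∈ V, GZ z ≤ 3 * (333 / 1000) := by
  classical
  have key : ∀ (W : Finset (ℤ × ℤ)) (g : ℤ × ℤ → ℤ × ℤ), Function.Injective g →
      (∀ z, GZ (g z) = GZ z) → (∀ z ∈ W, Good (g z) ∧ 13 ≤ N (g z) ∧ 0 < (g z).1 * (g z).2) →
      ∑ z ∈ W, GZ z ≤ 333 / 1000 := by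
    intro W g hg hG hW
    have h1 := same_sign (W.image g) (by
      intro x hx
      obtain ⟨z, hz, rfl⟩ := mem_image.1 hx
      exact hW z hz)
    rw [sum_image hg.injOn] at h1
    simpa only [hG] using h1
  rw [← sum_filter_add_sum_filter_not V (fun z => 0 < z.1 * z.2),
    ← sum_filter_add_sum_filter_not (V.filter fun z => ¬ 0 < z.1 * z.2)
      (fun z => 0 < (-z.1 - z.2) * z.1)]
  have h1 := key (V.filter fun z => 0 < z.1 * z.2) id Function.injective_id (fun _ => rfl) (by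
    intro z hz
    rw [mem_filter] at hz
    exact ⟨(hV z hz.1).1, (hV z hz.1).2, hz.2⟩)
  have h2 := key ((V.filter fun z => ¬ 0 < z.1 * z.2).filter fun z => 0 < (-z.1 - z.2) * z.1)
    rot rot_inj GZ_rot (by
    intro z hz
    rw [mem_filter, mem_filter] at hz
    exact ⟨(hV z hz.1.1).1.rot, by rw [N_rot]; exact (hV z hz.1.1).2, hz.2⟩)
  have h3 := key ((V.filter fun z => ¬ 0 < z.1 * z.2).filter fun z => ¬ 0 < (-z.1 - z.2) * z.1)
    (fun z => rot (rot z)) (rot_inj.comp rot_inj) (fun z => by rw [GZ_rot, GZ_rot]) (by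
    intro z hz
    rw [mem_filter, mem_filter] at hz
    refine ⟨(hV z hz.1.1).1.rot.rot, by rw [N_rot, N_rot]; exact (hV z hz.1.1).2, ?_⟩
    obtain ⟨n1, n2, n3⟩ := (hV z hz.1.1).1.ne
    have p1 := hz.1.2
    have p2 := hz.2
    simp only [rot]
    rw [mul_pos_iff] at p1 p2 ⊢
    omega)
  linarith

theorem Good.M {z : ℤ × ℤ} (h : Good z) (i : Fin 3) : Good (M i z) ∧ 13 ≤ N (M i z) := by
  obtain ⟨n1, n2, n3⟩ := h.ne
  obtain ⟨h1, h2, h3⟩ := h
  have c3 : ∀ x : ℤ, x % 3 ≠ 0 → IsCoprime 3 x := by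
    intro x hx
    have : Prime (3 : ℤ) := Int.prime_three
    exact (this.irreducible.coprime_iff_not_dvd).2 (by omega)
  have sq1 : ∀ x : ℤ, x ≠ 0 → 1 ≤ x ^ 2 := fun x hx => by
    have := sq_pos_of_ne_zero hx
    omega
  obtain ⟨u, v, huv⟩ := h2
  fin_cases i
  · simp only [Fin.zero_eta]
    have := N_M0 z
    have := sq1 _ n1
    refine ⟨⟨?_, ?_, by omega⟩, by omega⟩
    · simp only [M0]; omega
    · simp only [M0]
      exact IsCoprime.mul_left (c3 _ (by omega)) ⟨u + v, v, by linear_combination huv⟩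
  · simp only [Fin.mk_one]
    have := N_M1 z
    have := sq1 _ n2
    refine ⟨⟨?_, ?_, by omega⟩, by omega⟩
    · simp only [M1]; omega
    · simp only [M1]
      exact IsCoprime.mul_right (c3 _ (by omega)).symm ⟨u, u + v, by linear_combination huv⟩
  · simp only [Fin.reduceFinMk]
    have := N_M2 z
    have := sq1 _ n3
    refine ⟨⟨?_, ?_, by omega⟩, by omega⟩
    · simp only [M2]; omega
    · simp only [M2]
      have k1 : IsCoprime (2 * z.1 + z.2) (3 * (z.1 + z.2)) :=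
        IsCoprime.mul_right (c3 _ (by omega)).symm
          ⟨u - v, 2 * v - u, by linear_combination huv⟩
      obtain ⟨a, b, hab⟩ := k1
      exact ⟨a + b, b, by linear_combination hab⟩

def child (U : Finset (ℤ × ℤ)) : Finset (ℤ × ℤ) :=
  U.image (M 0) ∪ U.image (M 1) ∪ U.image (M 2)

theorem child_good {U : Finset (ℤ × ℤ)} (hU : ∀ z ∈ U, Good z) :
    ∀ z ∈ child U, Good z ∧ 13 ≤ N z := by
  intro z hz
  simp only [child, mem_union, mem_image] at hz
  rcases hz with (⟨x, hx, rfl⟩ | ⟨x, hx, rfl⟩) | ⟨x, hx, rfl⟩ <;> exact (hU x hx).M _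

theorem sum_child {U : Finset (ℤ × ℤ)} (hU : ∀ z ∈ U, Good z) (f : ℤ × ℤ → ℝ) :
    ∑ z ∈ child U, f z = ∑ z ∈ U, T M 1 f z := by
  have i0 : Function.Injective (M 0 : ℤ × ℤ → ℤ × ℤ) := by
    intro z z' h
    simp only [M0, Prod.mk.injEq] at h
    ext <;> omega
  have i1 : Function.Injective (M 1 : ℤ × ℤ → ℤ × ℤ) := by
    intro z z' h
    simp only [M1, Prod.mk.injEq] at h
    ext <;> omega
  have i2 : Function.Injective (M 2 : ℤ × ℤ → ℤ × ℤ) := by
    intro z z' h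
    simp only [M2, Prod.mk.injEq] at h
    ext <;> omega
  have d1 : Disjoint (U.image (M 0)) (U.image (M 1)) := by
    rw [disjoint_left]
    intro z h0 h1
    obtain ⟨x, hx, rfl⟩ := mem_image.1 h0
    obtain ⟨y, hy, h⟩ := mem_image.1 h1
    have := (hU x hx).1
    have := (hU y hy).1
    simp only [M0, M1, Prod.mk.injEq] at h
    omega
  have d2 : Disjoint (U.image (M 0) ∪ U.image (M 1)) (U.image (M 2)) := by
    rw [disjoint_left]
    intro z h0 h1
    obtain ⟨y, hy, rfl⟩ := mem_image.1 h1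
    have := (hU y hy).1
    rcases mem_union.1 h0 with h0 | h0
    · obtain ⟨x, hx, h⟩ := mem_image.1 h0
      have := (hU x hx).1
      simp only [M0, M2, Prod.mk.injEq] at h
      omega
    · obtain ⟨x, hx, h⟩ := mem_image.1 h0
      have := (hU x hx).1
      simp only [M1, M2, Prod.mk.injEq] at h
      omega
  unfold child
  rw [sum_union d2, sum_union d1, sum_image i0.injOn, sum_image i1.injOn, sum_image i2.injOn,
    ← sum_add_distrib, ← sum_add_distrib]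
  rfl

def G0 : Finset (ℤ × ℤ) := {(-1, 3), (1, 2), (-2, -1), (-3, 1), (3, -2), (2, -3)}

theorem G0_good : ∀ z ∈ G0, Good z ∧ N z = 7 := by
  intro z hz
  simp only [G0, mem_insert, mem_singleton] at hz
  rcases hz with rfl | rfl | rfl | rfl | rfl | rfl <;>
    refine ⟨⟨by decide, ?_, by decide⟩, by decide⟩ <;>
    exact Int.isCoprime_iff_gcd_eq_one.2 (by decide)

def UU : ℕ → Finset (ℤ × ℤ)
  | 0 => G0
  | K + 1 => G0 ∪ child (UU K)

theorem UU_good (K : ℕ) : ∀ z ∈ UU K, Good z := by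
  induction K with
  | zero => exact fun z hz => (G0_good z hz).1
  | succ K ih =>
    intro z hz
    rcases mem_union.1 hz with h | h
    · exact (G0_good z h).1
    · exact (child_good ih z h).1

theorem sum_UU (K : ℕ) (f : ℤ × ℤ → ℝ) :
    ∑ z ∈ UU K, f z = ∑ k ∈ range (K + 1), ∑ z ∈ G0, T M k f z := by
  induction K generalizing f with
  | zero => simp [UU]
  | succ K ih =>
    have d : Disjoint G0 (child (UU K)) := by
      rw [disjoint_left]
      intro z h0 h1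
      have := (G0_good z h0).2
      have := (child_good (UU_good K) z h1).2
      omega
    rw [UU, sum_union d, sum_child (UU_good K), ih, sum_range_succ' _ (K + 1), add_comm]
    simp only [T_add, T_zero]

/-- The level sums below the two side children of the weak vector. -/
noncomputable def LL (k : ℕ) : ℝ := T M k GZ (-1, 3) + T M k GZ (1, 2)

theorem LL_nonneg (k : ℕ) : 0 ≤ LL k :=
  add_nonneg (T_nonneg _ _ (fun _ => phi_nonneg _) _ _) (T_nonneg _ _ (fun _ => phi_nonneg _) _ _)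

theorem sum_G0 (k : ℕ) : ∑ z ∈ G0, T M k GZ z = 3 * LL k := by
  have a1 := T_M_rot GZ GZ_rot k (-1, 3)
  have a2 := T_M_rot GZ GZ_rot k (1, 2)
  have a3 := T_M_rot GZ GZ_rot k (-2, -1)
  have a4 := T_M_rot GZ GZ_rot k (-3, 1)
  have e1 : rot ((-1, 3) : ℤ × ℤ) = (-2, -1) := by decide
  have e2 : rot ((1, 2) : ℤ × ℤ) = (-3, 1) := by decide
  have e3 : rot ((-2, -1) : ℤ × ℤ) = (3, -2) := by decide
  have e4 : rot ((-3, 1) : ℤ × ℤ) = (2, -3) := by decide
  rw [e1] at a1; rw [e2] at a2; rw [e3] at a3; rw [e4] at a4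
  unfold G0 LL
  rw [sum_insert (by decide), sum_insert (by decide), sum_insert (by decide),
    sum_insert (by decide), sum_insert (by decide), sum_singleton]
  linarith

theorem sum_LL (K : ℕ) : ∑ k ∈ range K, LL (k + 1) ≤ 333 / 1000 := by
  have h1 := lattice_bound (child (UU K)) (child_good (UU_good K))
  rw [sum_child (UU_good K), sum_UU] at h1
  simp only [← T_add, sum_G0] at h1
  rw [← mul_sum, sum_range_succ] at h1
  have := LL_nonneg (K + 1)
  linarith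

end Pool.Agent.H951Z
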