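import Mathlib

set_option autoImplicit false
open scoped Pointwise

namespace Pool.Agent.H951Z.Nub

/-- In a compact group a tidy closed subgroup is mapped into itself. -/
theorem tidy_inv {G : Type} [Group G] [TopologicalSpace G] [IsTopologicalGroup G]
    [CompactSpace G] [T2Space G] (a : MulAut G) (ha : ∀ n : ℕ, Continuous (⇑(a ^ n)))
    (U : Subgroup G) (hU : IsClosed (U : Set G))
    (h1 : (U : Set G) = (⋂ n : ℕ, Set.image (⇑(a ^ n)) (U : Set G)) *
                (⋂ n : ℕ, Set.image (⇑(a⁻¹ ^ n)) (U : Set G)))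
    (h2 : IsClosed (⋃ m : ℕ, Set.image (⇑(a ^ m))
                (⋂ n : ℕ, Set.image (⇑(a ^ n)) (U : Set G)))) :
    ∀ g ∈ U, a g ∈ U := by
  -- the subgroup U₊
  set Up : Subgroup G := ⨅ n : ℕ, U.map (a ^ n).toMonoidHom with hUp
  have hUpc : (Up : Set G) = ⋂ n : ℕ, Set.image (⇑(a ^ n)) (U : Set G) := by
    rw [hUp, Subgroup.coe_iInf]
    rfl
  have hUpcl : IsClosed (Up : Set G) := by
    rw [hUpc]
    exact isClosed_iInter fun n => (hU.isCompact.image (ha n)).isClosed
  set P : ℕ → Subgroup G := fun m => Up.map (a ^ m).toMonoidHom with hP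
  have hPc : ∀ m, (P m : Set G) = Set.image (⇑(a ^ m)) (Up : Set G) := fun m => rfl
  have hPcl : ∀ m, IsClosed (P m : Set G) := fun m => by
    rw [hPc]; exact (hUpcl.isCompact.image (ha m)).isClosed
  have hstep : ∀ g ∈ Up, ∃ g' ∈ Up, a g' = g := by
    intro g hg
    refine ⟨a⁻¹ g, ?_, by simp⟩
    have hg' : g ∈ (Up : Set G) := hg
    have : a⁻¹ g ∈ (Up : Set G) := by
      rw [hUpc] at hg' ⊢
      refine Set.mem_iInter.2 fun n => ?_
      obtain ⟨u, hu, hug⟩ := Set.mem_iInter.1 hg' (n + 1)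
      refine ⟨u, hu, ?_⟩
      rw [← hug, pow_succ']
      simp
    exact this
  have hmono : Monotone P := by
    refine monotone_nat_of_le_succ fun m => ?_
    rintro _ ⟨g, hg, rfl⟩
    obtain ⟨g', hg', rfl⟩ := hstep g hg
    refine ⟨g', hg', ?_⟩
    simp [pow_succ]
  set Q : Subgroup G := ⨆ m, P m with hQ
  have hQc : (Q : Set G) = ⋃ m, (P m : Set G) :=
    Subgroup.coe_iSup_of_directed hmono.directed_le
  have hQcl : IsClosed (Q : Set G) := by
    rw [hQc]
    simp only [hPc, hUpc]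
    exact h2
  have : CompactSpace Q := isCompact_iff_compactSpace.1 hQcl.isCompact
  have hcov : ⋃ m, (((P m).subgroupOf Q : Subgroup Q) : Set Q) = Set.univ := by
    refine Set.eq_univ_of_forall fun q => ?_
    have : (q : G) ∈ (Q : Set G) := q.2
    rw [hQc] at this
    obtain ⟨m, hm⟩ := Set.mem_iUnion.1 this
    exact Set.mem_iUnion.2 ⟨m, hm⟩
  have hcl : ∀ m, IsClosed (((P m).subgroupOf Q : Subgroup Q) : Set Q) := fun m =>
    (hPcl m).preimage continuous_subtype_val
  obtain ⟨m, x, hx⟩ := nonempty_interior_of_iUnion_of_closed hcl hcov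
  have hop : IsOpen (((P m).subgroupOf Q : Subgroup Q) : Set Q) :=
    Subgroup.isOpen_of_mem_nhds _ (mem_interior_iff_mem_nhds.1 hx)
  have hop' : ∀ k, IsOpen (((P (m + k)).subgroupOf Q : Subgroup Q) : Set Q) := fun k =>
    Subgroup.isOpen_mono (Subgroup.comap_mono (hmono (Nat.le_add_right m k))) hop
  obtain ⟨k, hk⟩ := (isCompact_univ (X := Q)).elim_directed_cover
    (fun k => (((P (m + k)).subgroupOf Q : Subgroup Q) : Set Q)) hop'
    (by
      rw [← hcov]
      refine Set.iUnion_subset fun i => ?_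
      refine Set.subset_iUnion_of_subset i ?_
      exact Subgroup.comap_mono (hmono (Nat.le_add_left i m)))
    (by
      refine Monotone.directed_le (f := fun k => (((P (m + k)).subgroupOf Q : Subgroup Q) : Set Q)) ?_
      intro i j hij
      exact Subgroup.comap_mono (hmono (Nat.add_le_add_left hij m)))
  have hplus : ∀ g ∈ Up, a g ∈ Up := by
    intro g hg
    have h3 : (a ^ (m + k + 1)) g ∈ Q := by
      have : (a ^ (m + k + 1)) g ∈ P (m + k + 1) := ⟨g, hg, rfl⟩
      exact (le_iSup P (m + k + 1)) this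
    have h4 : (a ^ (m + k + 1)) g ∈ P (m + k) := hk (Set.mem_univ (⟨_, h3⟩ : Q))
    obtain ⟨g', hg', hgg⟩ := h4
    have h5 : (a ^ (m + k)) g' = (a ^ (m + k)) (a g) := by
      have : (a ^ (m + k)) g' = (a ^ (m + k + 1)) g := hgg
      rw [this, pow_succ]
      simp
    have := (a ^ (m + k)).injective h5
    rw [← this]
    exact hg'
  intro g hg
  have hg' : g ∈ (U : Set G) := hg
  rw [h1] at hg'
  obtain ⟨u, hu, v, hv, rfl⟩ := hg'
  rw [← hUpc] at hu
  have hu' : a u ∈ U := by
    have h6 : a u ∈ (Up : Set G) := hplus u hu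
    rw [hUpc] at h6
    obtain ⟨w, hw, hwu⟩ := Set.mem_iInter.1 h6 0
    have : w = a u := by simpa using hwu
    rw [← this]; exact hw
  have hv' : a v ∈ U := by
    obtain ⟨w, hw, hwv⟩ := Set.mem_iInter.1 hv 1
    rw [← hwv]
    simpa using hw
  simp only [map_mul]
  exact U.mul_mem hu' hv'

/-- A closed subgroup invariant under an automorphism and its inverse is tidy. -/
theorem inv_tidy {G : Type} [Group G] [TopologicalSpace G] (a : MulAut G)
    (U : Subgroup G) (hU : IsClosed (U : Set G))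
    (h1 : ∀ g ∈ U, a g ∈ U) (h2 : ∀ g ∈ U, a⁻¹ g ∈ U) :
    ((U : Set G) = (⋂ n : ℕ, Set.image (⇑(a ^ n)) (U : Set G)) *
                (⋂ n : ℕ, Set.image (⇑(a⁻¹ ^ n)) (U : Set G))) ∧
    IsClosed (⋃ m : ℕ, Set.image (⇑(a ^ m))
                (⋂ n : ℕ, Set.image (⇑(a ^ n)) (U : Set G))) := by
  have key : ∀ b : MulAut G, (∀ g ∈ U, b g ∈ U) → (∀ g ∈ U, b⁻¹ g ∈ U) →
      ∀ n : ℕ, Set.image (⇑(b ^ n)) (U : Set G) = U := by
    intro b hb hb' n
    induction n with
    | zero => simp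
    | succ n ih =>
      have hbU : Set.image (⇑b) (U : Set G) = U := by
        refine Set.Subset.antisymm ?_ ?_
        · rintro _ ⟨g, hg, rfl⟩
          exact hb g hg
        · intro g hg
          exact ⟨b⁻¹ g, hb' g hg, by simp⟩
      rw [pow_succ, MulAut.coe_mul, Set.image_comp, hbU, ih]
  have k1 := key a h1 h2
  have k2 := key a⁻¹ h2 (by simpa using h1)
  simp only [k1, k2, Set.iInter_const, Set.iUnion_const]
  exact ⟨(coe_mul_coe U).symm, hU⟩

end Pool.Agent.H951Z.Nub
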