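import Mathlib

set_option autoImplicit false

namespace Pool.Agent.H951Z.Nub

/-- The wreath product of the additive rationals by the cyclic group of order `m`. -/
@[ext] structure Aff (m : ℕ) where
  v : ZMod m → ℚ
  s : ZMod m

instance (m : ℕ) : Mul (Aff m) := ⟨fun a b => ⟨fun i => a.v i + b.v (i + a.s), a.s + b.s⟩⟩
instance (m : ℕ) : One (Aff m) := ⟨⟨0, 0⟩⟩
instance (m : ℕ) : Inv (Aff m) := ⟨fun a => ⟨fun i => - a.v (i - a.s), -a.s⟩⟩

@[simp] theorem mul_v {m : ℕ} (a b : Aff m) (i : ZMod m) :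
    (a * b).v i = a.v i + b.v (i + a.s) := rfl
@[simp] theorem mul_s {m : ℕ} (a b : Aff m) : (a * b).s = a.s + b.s := rfl
@[simp] theorem one_v {m : ℕ} (i : ZMod m) : (1 : Aff m).v i = 0 := rfl
@[simp] theorem one_s {m : ℕ} : (1 : Aff m).s = 0 := rfl
@[simp] theorem inv_v {m : ℕ} (a : Aff m) (i : ZMod m) : (a⁻¹).v i = - a.v (i - a.s) := rfl
@[simp] theorem inv_s {m : ℕ} (a : Aff m) : (a⁻¹).s = - a.s := rfl

instance (m : ℕ) : Group (Aff m) :=
  Group.ofLeftAxioms
    (fun a b c => by
      ext i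
      · simp [add_assoc]
      · simp [add_assoc])
    (fun a => by
      ext i
      · simp
      · simp)
    (fun a => by
      ext i
      · simp [sub_eq_add_neg]
      · simp)

theorem pow_s {m : ℕ} (a : Aff m) (k : ℕ) : (a ^ k).s = (k : ZMod m) * a.s := by
  induction k with
  | zero => simp
  | succ k ih => rw [pow_succ, mul_s, ih]; push_cast; ring

theorem pow_v_of_s {m : ℕ} (a : Aff m) (h : a.s = 0) (k : ℕ) (i : ZMod m) :
    (a ^ k).v i = (k : ℚ) * a.v i := by
  induction k with
  | zero => simp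
  | succ k ih => rw [pow_succ, mul_v, ih, pow_s, h]; push_cast; simp; ring

theorem pow_v_of_v {m : ℕ} (a : Aff m) (h : a.v = 0) (k : ℕ) : (a ^ k).v = 0 := by
  induction k with
  | zero => rfl
  | succ k ih => funext i; rw [pow_succ, mul_v, ih, h]; simp

/-- The translations by a subspace. -/
def transl {m : ℕ} (W : Submodule ℚ (ZMod m → ℚ)) : Subgroup (Aff m) where
  carrier := {a | a.s = 0 ∧ a.v ∈ W}
  one_mem' := ⟨rfl, W.zero_mem⟩
  mul_mem' := by
    rintro a b ⟨ha, ha'⟩ ⟨hb, hb'⟩
    refine ⟨by simp [ha, hb], ?_⟩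
    have : (a * b).v = a.v + b.v := by funext i; simp [ha]
    rw [this]; exact W.add_mem ha' hb'
  inv_mem' := by
    rintro a ⟨ha, ha'⟩
    refine ⟨by simp [ha], ?_⟩
    have : (a⁻¹).v = -a.v := by funext i; simp [ha]
    rw [this]; exact W.neg_mem ha'

/-- For finitely many elements of the free group on two letters there is a subgroup of infinite
index containing a positive power of each. -/
theorem exists_subgroup (l : List (FreeGroup Bool)) :
    ∃ (K : Subgroup (FreeGroup Bool)) (m : ℕ), 0 < m ∧ (∀ h ∈ l, h ^ m ∈ K) ∧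
      ∃ t : ℕ → FreeGroup Bool, ∀ i j, (t i)⁻¹ * t j ∈ K → i = j := by
  classical
  obtain ⟨m, hm⟩ : ∃ m, m = l.length + 1 := ⟨_, rfl⟩
  have : NeZero m := ⟨by omega⟩
  let sh : Aff m := ⟨0, -1⟩
  let tr : Aff m := ⟨Pi.single 0 1, 0⟩
  let ρ : FreeGroup Bool →* Aff m := FreeGroup.lift fun b => if b then sh else tr
  let S : Finset (ZMod m → ℚ) := l.toFinset.image fun h => ((ρ h) ^ m).v
  let W : Submodule ℚ (ZMod m → ℚ) := Submodule.span ℚ (S : Set (ZMod m → ℚ))
  have hW : Module.finrank ℚ W < m := by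
    have h1 : Module.finrank ℚ W ≤ S.card := finrank_span_finset_le_card S
    have h2 : S.card ≤ l.toFinset.card := Finset.card_image_le
    have h3 : l.toFinset.card ≤ l.length := List.toFinset_card_le l
    omega
  obtain ⟨j, hj⟩ : ∃ j : ZMod m, Pi.single j (1 : ℚ) ∉ W := by
    by_contra hcon
    push Not at hcon
    have htop : W = ⊤ := by
      refine eq_top_iff.2 fun x _ => ?_
      rw [pi_eq_sum_univ' x]
      exact W.sum_mem fun i _ => W.smul_mem _ (hcon i)
    rw [htop, finrank_top] at hW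
    simp [ZMod.card] at hW
  refine ⟨(transl W).comap ρ, m, by omega, ?_, ?_⟩
  · intro h hh
    rw [Subgroup.mem_comap, map_pow]
    refine ⟨by rw [pow_s]; simp, ?_⟩
    refine Submodule.subset_span ?_
    simp only [S, Finset.coe_image]
    exact ⟨h, by simpa using hh, rfl⟩
  · let c : FreeGroup Bool :=
      (FreeGroup.of true) ^ j.val * FreeGroup.of false * ((FreeGroup.of true) ^ j.val)⁻¹
    have hsh : ρ (FreeGroup.of true) = sh := by simp [ρ]
    have htr : ρ (FreeGroup.of false) = tr := by simp [ρ]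
    have hs1 : (sh ^ j.val).s = -j := by rw [pow_s]; simp [sh]
    have hv1 : (sh ^ j.val).v = 0 := pow_v_of_v sh rfl _
    have hcs : (ρ c).s = 0 := by
      simp only [c, map_mul, map_inv, map_pow, hsh, htr, mul_s, inv_s, hs1]
      simp [tr]
    have hcv : (ρ c).v = Pi.single j 1 := by
      funext i
      simp only [c, map_mul, map_inv, map_pow, hsh, htr, mul_v, mul_s, inv_v, hs1, hv1]
      simp only [tr, Pi.zero_apply, neg_zero, add_zero, zero_add]
      by_cases hi : i = j
      · subst hi; simp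
      · have : i + -j ≠ 0 := fun h => hi (by rwa [← sub_eq_add_neg, sub_eq_zero] at h)
        simp [hi, this]
    refine ⟨fun k => c ^ k, fun a b hab => ?_⟩
    rw [Subgroup.mem_comap, map_mul, map_inv, map_pow, map_pow] at hab
    have h2 := hab.2
    have h3 : (((ρ c) ^ a)⁻¹ * (ρ c) ^ b).v = ((b : ℚ) - a) • (Pi.single j (1 : ℚ) : ZMod m → ℚ) := by
      funext i
      simp only [mul_v, inv_v, inv_s, pow_s, hcs, pow_v_of_s _ hcs, hcv]
      simp only [mul_zero, sub_zero, neg_zero, add_zero, Pi.smul_apply, smul_eq_mul]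
      ring
    rw [h3] at h2
    by_contra hne
    have h4 : ((b : ℚ) - a) ≠ 0 := by
      intro h
      apply hne
      have : (a : ℚ) = b := by linarith
      exact_mod_cast this
    exact hj ((W.smul_mem_iff h4).1 h2)

end Pool.Agent.H951Z.Nub
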