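import Mathlib
import Pool.Agent.H951Z.NubA
import Pool.Agent.H951Z.NubB

set_option autoImplicit false
open scoped Pointwise

namespace Pool.Agent.H951Z.Nub

/-- The free group on two letters. -/
abbrev Fr : Type := FreeGroup Bool
/-- The disjoint union of all coset spaces of the free group. -/
abbrev XX : Type := Σ K : Subgroup Fr, Fr ⧸ K
/-- The group of order two. -/
abbrev MM : Type := Multiplicative (ZMod 2)
/-- The compact group. -/
abbrev GG : Type := XX → MM

/-- The shift action. -/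
def phi : Fr →* MulAut GG := mulAutArrow

theorem phi_apply (h : Fr) (g : GG) (y : XX) : phi h g y = g (h⁻¹ • y) := rfl

theorem phi_cont (h : Fr) : Continuous (⇑(phi h)) :=
  continuous_pi fun y => continuous_apply (h⁻¹ • y)

theorem range_cont : ∀ a ∈ phi.range, Continuous (⇑a) := by
  rintro _ ⟨h, rfl⟩
  exact phi_cont h

theorem range_fg : phi.range.FG := by
  exact (Group.fg_iff_subgroup_fg phi.range).1 (Group.fg_range phi)

/-- The subgroup of functions trivial on a set. -/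
def triv (S : Set XX) : Subgroup GG := Subgroup.pi S fun _ => ⊥

theorem mem_triv (S : Set XX) (g : GG) : g ∈ triv S ↔ ∀ y ∈ S, g y = 1 := by
  simp [triv, Subgroup.mem_pi]

theorem triv_open (S : Set XX) (hS : S.Finite) : IsOpen (triv S : Set GG) := by
  rw [triv, Subgroup.coe_pi]
  exact isOpen_set_pi hS fun _ _ => isOpen_discrete _

theorem delta_mem (x : XX) (t : ℕ → Fr) (ht : Function.Injective fun k => t k • x)
    (U : Subgroup GG) (hU : IsOpen (U : Set GG)) (hinv : ∀ h : Fr, ∀ g ∈ U, phi h g ∈ U)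
    (d : GG) (hd : ∀ y, y ≠ x → d y = 1) : d ∈ U := by
  obtain ⟨I, u, hu, hI⟩ := isOpen_pi_iff.1 hU 1 U.one_mem
  obtain ⟨k, hk⟩ : ∃ k, t k • x ∉ I := by
    by_contra hcon
    push Not at hcon
    exact (Set.infinite_of_injective_forall_mem (s := (I : Set XX)) ht hcon) I.finite_toSet
  have h1 : phi (t k) d ∈ U := by
    apply hI
    intro y hy
    have : phi (t k) d y = 1 := by
      rw [phi_apply]
      apply hd
      intro h
      apply hk
      rw [← h, smul_inv_smul]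
      exact hy
    rw [this]
    exact (hu y hy).2
  have h2 := hinv (t k)⁻¹ _ h1
  rw [map_inv] at h2
  simpa using h2

theorem orbit_finite (x : XX) (h : Fr) (m : ℕ) (hm : 0 < m) (hx : h ^ m • x = x) :
    (Set.range fun k : ℤ => h ^ k • x).Finite := by
  refine ((Set.finite_Ico (0 : ℤ) m).image fun k : ℤ => h ^ k • x).subset ?_
  rintro _ ⟨k, rfl⟩
  have hm' : (0 : ℤ) < m := by exact_mod_cast hm
  refine ⟨k % m, ⟨Int.emod_nonneg _ hm'.ne', Int.emod_lt_of_pos _ hm'⟩, ?_⟩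
  have h1 : (h ^ m) ^ (k / m) ∈ MulAction.stabilizer Fr x :=
    Subgroup.zpow_mem _ (MulAction.mem_stabilizer_iff.2 hx) _
  have h2 : h ^ k = h ^ (k % m) * (h ^ m) ^ (k / m) := by
    rw [← zpow_natCast, ← zpow_mul, ← zpow_add, Int.emod_add_mul_ediv]
  show h ^ (k % m) • x = h ^ k • x
  rw [h2, mul_smul, MulAction.mem_stabilizer_iff.1 h1]

theorem exists_inv (x : XX) (h : Fr) (m : ℕ) (hm : 0 < m) (hx : h ^ m • x = x) :
    ∃ U : Subgroup GG, IsOpen (U : Set GG) ∧ (∀ g ∈ U, phi h g ∈ U) ∧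
      (∀ g ∈ U, (phi h)⁻¹ g ∈ U) ∧ ∀ g ∈ U, g x = 1 := by
  refine ⟨triv (Set.range fun k : ℤ => h ^ k • x), triv_open _ (orbit_finite x h m hm hx),
    ?_, ?_, ?_⟩
  · intro g hg
    rw [mem_triv] at hg ⊢
    rintro _ ⟨k, rfl⟩
    rw [phi_apply]
    apply hg
    refine ⟨-1 + k, ?_⟩
    simp only [zpow_add, mul_smul, zpow_neg, zpow_one]
  · intro g hg
    rw [mem_triv] at hg ⊢
    rintro _ ⟨k, rfl⟩
    rw [← map_inv, phi_apply]
    apply hg
    refine ⟨1 + k, ?_⟩
    simp only [zpow_add, mul_smul, zpow_one, inv_inv]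
  · intro g hg
    rw [mem_triv] at hg
    exact hg x ⟨0, by simp⟩

theorem prod_triv (x : XX) (L : List (Set GG)) (hL : ∀ A ∈ L, ∀ g ∈ A, g x = 1) :
    ∀ g ∈ L.prod, g x = 1 := by
  induction L with
  | nil =>
    intro g hg
    have : g = 1 := by simpa using hg
    rw [this]; rfl
  | cons A L ih =>
    intro g hg
    rw [List.prod_cons] at hg
    obtain ⟨u, hu, v, hv, rfl⟩ := hg
    have h1 := hL A (by simp) u hu
    have h2 := ih (fun B hB => hL B (by simp [hB])) v hv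
    simp [h1, h2]

theorem exists_point (l : List (MulAut GG)) (hl : ∀ a ∈ l, a ∈ phi.range) :
    ∃ (x : XX) (t : ℕ → Fr), (Function.Injective fun k => t k • x) ∧
      ∀ a ∈ l, ∃ (h : Fr) (m : ℕ), phi h = a ∧ 0 < m ∧ h ^ m • x = x := by
  obtain ⟨l', hl'⟩ : ∃ l' : List Fr, ∀ a ∈ l, ∃ h ∈ l', phi h = a := by
    induction l with
    | nil => exact ⟨[], by simp⟩
    | cons a l ih =>
      obtain ⟨l', hl'⟩ := ih fun b hb => hl b (by simp [hb])
      obtain ⟨h, hh⟩ := hl a (by simp)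
      refine ⟨h :: l', ?_⟩
      intro b hb
      rcases List.mem_cons.1 hb with rfl | hb
      · exact ⟨h, by simp, hh⟩
      · obtain ⟨h', hh', e⟩ := hl' b hb
        exact ⟨h', by simp [hh'], e⟩
  obtain ⟨K, m, hm, hK, t, ht⟩ := exists_subgroup l'
  have hs : ∀ g : Fr, g • (⟨K, ((1 : Fr) : Fr ⧸ K)⟩ : XX) = ⟨K, (g : Fr ⧸ K)⟩ := by
    intro g
    rw [Sigma.smul_mk, MulAction.Quotient.smul_coe, smul_eq_mul, mul_one]
  refine ⟨⟨K, ((1 : Fr) : Fr ⧸ K)⟩, t, ?_, ?_⟩
  · intro i j hij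
    simp only [hs] at hij
    have h1 : ((t i : Fr) : Fr ⧸ K) = (t j : Fr ⧸ K) := eq_of_heq (Sigma.mk.inj hij).2
    exact ht i j (QuotientGroup.eq.1 h1)
  · intro a ha
    obtain ⟨h, hh, e⟩ := hl' a ha
    refine ⟨h, m, e, hm, ?_⟩
    rw [hs]
    congr 1
    exact QuotientGroup.eq.2 (by simpa using hK h hh)

end Pool.Agent.H951Z.Nub
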