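import Mathlib

set_option autoImplicit false

namespace Pool.Agent.H951Z.PCube

open Finset

theorem dist_eq {V : Type} {n : ℕ} (G : SimpleGraph V) (f : V → (Fin n → Bool))
    (hinj : Function.Injective f)
    (hadj : ∀ u v, G.Adj u v → hammingDist (f u) (f v) = 1)
    (hstep : ∀ u v, u ≠ v → ∃ w, G.Adj u w ∧
      hammingDist (f w) (f v) + 1 = hammingDist (f u) (f v)) (u v : V) :
    hammingDist (f u) (f v) = G.dist u v := by
  have h1 : ∀ (m : ℕ) (u : V), hammingDist (f u) (f v) = m → ∃ p : G.Walk u v, p.length = m := by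
    intro m
    induction m with
    | zero =>
      intro u h
      obtain rfl := hinj (hammingDist_eq_zero.1 h)
      exact ⟨SimpleGraph.Walk.nil, rfl⟩
    | succ m ih =>
      intro u h
      have hne : u ≠ v := by
        rintro rfl
        simp at h
      obtain ⟨w, hw, h2⟩ := hstep u v hne
      obtain ⟨p, hp⟩ := ih w (by omega)
      exact ⟨SimpleGraph.Walk.cons hw p, by simp [hp]⟩
  have h2 : ∀ (u : V) (p : G.Walk u v), hammingDist (f u) (f v) ≤ p.length := by
    intro u p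
    induction p with
    | nil => simp
    | cons h p ih =>
      rename_i a b c
      have := hammingDist_triangle (f a) (f b) (f c)
      have h3 := hadj a b h
      have h4 := ih (fun m u hm => h1 m u hm)
      simp only [SimpleGraph.Walk.length_cons]
      omega
  obtain ⟨p, hp⟩ := h1 _ u rfl
  apply le_antisymm
  · obtain ⟨q, hq⟩ := p.reachable.exists_walk_length_eq_dist
    rw [← hq]; exact h2 u q
  · rw [← hp]; exact SimpleGraph.dist_le p

/-- The set of at most two coordinates attached to a vertex (99 stands for no coordinate). -/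
def code (v : ℕ) : ℕ × ℕ :=
  if v = 0 then (99, 99) else if v ≤ 23 then (v - 1, 99) else if v ≤ 34 then (0, v - 23)
  else (v - 34, v - 23)

def emb (v : Fin 46) : Fin 23 → Bool := fun i => (code v).1 == i.val || (code v).2 == i.val

def sz (a : ℕ × ℕ) : ℕ := (if a.1 = 99 then 0 else 1) + (if a.2 = 99 then 0 else 1)

def cm (a b : ℕ × ℕ) : ℕ := (if a.1 ≠ 99 ∧ (a.1 = b.1 ∨ a.1 = b.2) then 1 else 0) +
  (if a.2 ≠ 99 ∧ (a.2 = b.1 ∨ a.2 = b.2) then 1 else 0)

def hd (u v : Fin 46) : ℕ := sz (code u) + sz (code v) - 2 * cm (code u) (code v)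

theorem hd_eq : ∀ u v : Fin 46, hammingDist (emb u) (emb v) = hd u v := by decide +kernel

theorem hd_symm : ∀ u v : Fin 46, hd u v = 1 → hd v u = 1 := by decide +kernel

theorem hd_zero : ∀ u v : Fin 46, hd u v = 0 ↔ u = v := by decide +kernel

theorem hd_step : ∀ u v : Fin 46, u ≠ v → ∃ w, hd u w = 1 ∧ hd w v + 1 = hd u v := by
  decide +kernel

def GG : SimpleGraph (Fin 46) where
  Adj u v := hd u v = 1
  symm := ⟨fun u v h => hd_symm u v h⟩
  loopless := ⟨fun u h => by
    have := (hd_zero u u).2 rfl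
    omega⟩

def dg (u : Fin 46) : ℕ := (univ.filter fun x => hd u x = 1).card

theorem near : ∀ x : Fin 46, hd 0 x = 1 → x = 1 ∨
    (∃ z, hd x z = 1 ∧ hd z 1 = 1 ∧ dg x = 3 ∧ dg z = 2) ∨
    (∃ y b z, hd x y = 1 ∧ hd y b = 1 ∧ hd b z = 1 ∧ hd z 1 = 1 ∧ dg x = 2 ∧ dg y = 2 ∧
      dg b = 3 ∧ dg z = 2) := by
  intro x
  fin_cases x <;> first
    | (intro h; exact absurd h (by decide +kernel))
    | (intro _; left; rfl)
    | (intro _; right; left; decide +kernel)
    | skip
  all_goals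
    intro _; right; right
    first
    | exact ⟨35, 2, 24, by decide +kernel⟩
    | exact ⟨36, 3, 25, by decide +kernel⟩
    | exact ⟨37, 4, 26, by decide +kernel⟩
    | exact ⟨38, 5, 27, by decide +kernel⟩
    | exact ⟨39, 6, 28, by decide +kernel⟩
    | exact ⟨40, 7, 29, by decide +kernel⟩
    | exact ⟨41, 8, 30, by decide +kernel⟩
    | exact ⟨42, 9, 31, by decide +kernel⟩
    | exact ⟨43, 10, 32, by decide +kernel⟩
    | exact ⟨44, 11, 33, by decide +kernel⟩
    | exact ⟨45, 12, 34, by decide +kernel⟩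

theorem dg0 : dg 0 = 23 := by decide +kernel
theorem dg1 : dg 1 = 12 := by decide +kernel

theorem no_coloring (c : Sym2 (Fin 46) → ℕ)
    (hp : ∀ u v w : Fin 46, GG.Adj u v → GG.Adj u w → v ≠ w → c s(u, v) ≠ c s(u, w))
    (hi : ∀ (u v w : Fin 46) (k : ℕ), GG.Adj u v → GG.Adj u w →
      c s(u, v) ≤ k → k ≤ c s(u, w) → ∃ x, GG.Adj u x ∧ c s(u, x) = k) : False := by
  have hd' : ∀ u v w : Fin 46, hd u v = 1 → hd u w = 1 → c s(u, w) + 1 ≤ c s(u, v) + dg u := by
    intro u v w hv hw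
    have h1 : Icc (c s(u, v)) (c s(u, w)) ⊆
        (univ.filter fun x => hd u x = 1).image (fun x => c s(u, x)) := by
      intro k hk
      rw [mem_Icc] at hk
      obtain ⟨x, hx, h⟩ := hi u v w k hv hw hk.1 hk.2
      exact mem_image.2 ⟨x, mem_filter.2 ⟨mem_univ _, hx⟩, h⟩
    have h2 := (card_le_card h1).trans card_image_le
    rw [Nat.card_Icc] at h2
    have h3 : 0 < dg u := card_pos.2 ⟨v, mem_filter.2 ⟨mem_univ _, hv⟩⟩
    change _ ≤ dg u at h2
    omega
  have sw : ∀ u v : Fin 46, c s(u, v) = c s(v, u) := fun u v => by rw [Sym2.eq_swap]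
  have key : ∀ x : Fin 46, hd 0 x = 1 →
      ∃ z, hd 1 z = 1 ∧ c s(0, x) ≤ c s(1, z) + 5 ∧ c s(1, z) ≤ c s(0, x) + 5 := by
    intro x hx
    have hx' := hd_symm _ _ hx
    rcases near x hx with rfl | ⟨z, h1, h2, d1, d2⟩ | ⟨y, b, z, h1, h2, h3, h4, d1, d2, d3, d4⟩
    · exact ⟨0, hx', by rw [sw 1 0]; omega, by rw [sw 1 0]; omega⟩
    · refine ⟨z, hd_symm _ _ h2, ?_⟩
      have a1 := hd' x 0 z hx' h1
      have a2 := hd' x z 0 h1 hx'
      have a3 := hd' z x 1 (hd_symm _ _ h1) h2
      have a4 := hd' z 1 x h2 (hd_symm _ _ h1)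
      rw [sw 0 x, sw 1 z]
      rw [sw z x] at a3 a4
      omega
    · refine ⟨z, hd_symm _ _ h4, ?_⟩
      have a1 := hd' x 0 y hx' h1
      have a2 := hd' x y 0 h1 hx'
      have a3 := hd' y x b (hd_symm _ _ h1) h2
      have a4 := hd' y b x h2 (hd_symm _ _ h1)
      have a5 := hd' b y z (hd_symm _ _ h2) h3
      have a6 := hd' b z y h3 (hd_symm _ _ h2)
      have a7 := hd' z b 1 (hd_symm _ _ h3) h4
      have a8 := hd' z 1 b h4 (hd_symm _ _ h3)
      rw [sw 0 x, sw 1 z]
      rw [sw y x] at a3 a4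
      rw [sw b y] at a5 a6
      rw [sw z b] at a7 a8
      omega
  obtain ⟨x0, hx0, hmin⟩ := exists_min_image (univ.filter fun x => hd 0 x = 1)
    (fun x => c s(0, x)) ⟨1, mem_filter.2 ⟨mem_univ _, by decide +kernel⟩⟩
  have h1 : (univ.filter fun x => hd 0 x = 1).card ≤ (Icc (c s(0, x0)) (c s(0, x0) + 21)).card := by
    refine card_le_card_of_injOn (fun x => c s(0, x)) ?_ ?_
    · intro x hx
      have hx' : x ∈ univ.filter fun x => hd 0 x = 1 := hx
      obtain ⟨z, hz, b1, -⟩ := key x (mem_filter.1 hx').2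
      obtain ⟨z0, hz0, -, b2⟩ := key x0 (mem_filter.1 hx0).2
      have b3 := hd' 1 z0 z hz0 hz
      rw [dg1] at b3
      have b4 := hmin x hx'
      simp only [coe_Icc, Set.mem_Icc]
      omega
    · intro x hx y hy h
      by_contra hne
      exact hp 0 x y (mem_filter.1 hx).2 (mem_filter.1 hy).2 hne h
  rw [Nat.card_Icc] at h1
  change dg 0 ≤ _ at h1
  rw [dg0] at h1
  omega

theorem emb_inj : Function.Injective emb := by
  intro u v h
  apply (hd_zero u v).1
  rw [← hd_eq, h, hammingDist_self]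

theorem isometric (u v : Fin 46) : hammingDist (emb u) (emb v) = GG.dist u v :=
  dist_eq GG emb emb_inj (fun u v h => by rw [hd_eq]; exact h)
    (fun u v h => by
      obtain ⟨w, h1, h2⟩ := hd_step u v h
      exact ⟨w, h1, by rw [hd_eq, hd_eq]; exact h2⟩) u v

end Pool.Agent.H951Z.PCube
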