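import Pool.Agent.H951Z.Core

set_option autoImplicit false

namespace Pool.Agent.H951Z

open Finset

def MM (i : Fin 3) (w : (ℝ × ℝ) × (ℝ × ℝ)) : (ℝ × ℝ) × (ℝ × ℝ) := (M i w.1, M i w.2)

noncomputable def HH (p : ℝ) (w : (ℝ × ℝ) × (ℝ × ℝ)) : ℝ := N w.1 ^ p * N w.2 ^ (1 - p)

def dt (w : (ℝ × ℝ) × (ℝ × ℝ)) : ℝ := w.1.1 * w.2.2 - w.1.2 * w.2.1

noncomputable def YY (p : ℝ) (w : (ℝ × ℝ) × (ℝ × ℝ)) : ℝ := (dt w ^ 2) ^ p * N w.2 ^ (1 - 2 * p)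

theorem dt_MM (i : Fin 3) (w : (ℝ × ℝ) × (ℝ × ℝ)) : dt (MM i w) = 3 * dt w := by
  fin_cases i
  · simp only [Fin.zero_eta, dt, MM, M0]; ring
  · simp only [Fin.mk_one, dt, MM, M1]; ring
  · simp only [Fin.reduceFinMk, dt, MM, M2]; ring

theorem T_YY (p : ℝ) (hp : sg ≤ 2 * p - 1) (w : (ℝ × ℝ) × (ℝ × ℝ)) (hw : 0 < N w.2) :
    ∃ K : ℝ, 0 ≤ K ∧ ∀ n, T MM n (YY p) w ≤ K * (9 ^ p) ^ n := by
  refine ⟨(dt w ^ 2) ^ p * N w.2 ^ (1 - 2 * p + sg) * (100 * S w.2), ?_, fun n => ?_⟩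
  · have := S_nonneg w.2
    positivity
  have h1 : T MM n (YY p) w ≤
      T M n (fun z => ((dt w ^ 2 * 9 ^ n) ^ p * N w.2 ^ (1 - 2 * p + sg)) * S z) w.2 := by
    refine T_rel MM M _ _
      (fun k v z => v.2 = z ∧ N w.2 ≤ N z ∧ dt v ^ 2 * 9 ^ k = dt w ^ 2 * 9 ^ n) ?_ ?_ n w w.2
      ⟨rfl, le_rfl, rfl⟩
    · rintro k v z i ⟨rfl, h2, h3⟩
      refine ⟨rfl, h2.trans (N_le_M i _), ?_⟩
      rw [dt_MM, ← h3]; ring
    · rintro v z ⟨rfl, h2, h3⟩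
      rw [pow_zero, mul_one] at h3
      unfold YY S
      rw [h3, mul_assoc]
      refine mul_le_mul_of_nonneg_left ?_ (by positivity)
      have hv : 0 < N v.2 := hw.trans_le h2
      have e : N v.2 ^ (1 - 2 * p) = N v.2 ^ (1 - 2 * p + sg) * N v.2 ^ (-sg) := by
        rw [← Real.rpow_add hv]; congr 1; ring
      rw [e]
      exact mul_le_mul_of_nonneg_right (Real.rpow_le_rpow_of_nonpos hw h2 (by linarith))
        (by positivity)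
  refine h1.trans ?_
  rw [T_mul]
  have h2 := core n w.2 hw
  have e : (dt w ^ 2 * 9 ^ n) ^ p = (dt w ^ 2) ^ p * (9 ^ p) ^ n := by
    have e9 : ((9 : ℝ) ^ n) ^ p = (9 ^ p) ^ n := by
      rw [← Real.rpow_natCast_mul (by norm_num), ← Real.rpow_mul_natCast (by norm_num), mul_comm p]
    rw [Real.mul_rpow (sq_nonneg _) (by positivity), e9]
  rw [e]
  have h3 : 0 ≤ (dt w ^ 2) ^ p * (9 ^ p) ^ n * N w.2 ^ (1 - 2 * p + sg) := by positivity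
  calc _ ≤ (dt w ^ 2) ^ p * (9 ^ p) ^ n * N w.2 ^ (1 - 2 * p + sg) * (100 * S w.2) :=
        mul_le_mul_of_nonneg_left h2 h3
    _ = _ := by ring

theorem N_add_le (a b : ℝ × ℝ) (ε : ℝ) (hε : 0 < ε) :
    N (a + b) ≤ (1 + ε) * N a + (1 + ε⁻¹) * N b := by
  have h := N_nonneg (ε • a - b)
  obtain ⟨a1, a2⟩ := a
  obtain ⟨b1, b2⟩ := b
  simp only [N, Prod.smul_mk, smul_eq_mul, Prod.mk_sub_mk, Prod.mk_add_mk] at h ⊢
  have h1 : ε * ε⁻¹ = 1 := mul_inv_cancel₀ hε.ne'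
  have h2 := mul_nonneg (inv_pos.2 hε).le h
  have e : ε⁻¹ * ((ε * a1 - b1) ^ 2 + (ε * a1 - b1) * (ε * a2 - b2) + (ε * a2 - b2) ^ 2) =
      ε * (a1 ^ 2 + a1 * a2 + a2 ^ 2) - (2 * a1 * b1 + a1 * b2 + a2 * b1 + 2 * a2 * b2)
        + ε⁻¹ * (b1 ^ 2 + b1 * b2 + b2 ^ 2) := by
    field_simp; ring
  rw [e] at h2
  nlinarith

theorem ratio_le (i : Fin 3) (x y : ℝ × ℝ) (hy : 0 < N y) (ε : ℝ) (hε : 0 < ε) :
    N (M i x) / N (M i y) ≤
      (1 + ε) * (N x / N y) + (1 + ε⁻¹) * (27 / 4 * (dt (x, y) ^ 2 / N y ^ 2)) := by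
  have hy' : 0 < N (M i y) := hy.trans_le (N_le_M i y)
  set c : ℝ := (2 * x.1 * y.1 + x.1 * y.2 + x.2 * y.1 + 2 * x.2 * y.2) / (2 * N y) with hc
  have hcN : c * N y = (2 * x.1 * y.1 + x.1 * y.2 + x.2 * y.1 + 2 * x.2 * y.2) / 2 := by
    rw [hc]; field_simp
  have e1 : N x * N y = (c * N y) ^ 2 + 3 / 4 * dt (x, y) ^ 2 := by
    rw [hcN]; simp only [N, dt]; ring
  have e2 : N (x - c • y) = N x - 2 * c * (c * N y) + c ^ 2 * N y := by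
    rw [hcN]; simp only [N, Prod.fst_sub, Prod.snd_sub, Prod.smul_fst, Prod.smul_snd, smul_eq_mul]
    ring
  have e3 : N (x - c • y) = 3 / 4 * (dt (x, y) ^ 2 / N y ^ 2) * N y := by
    rw [e2]; field_simp; linarith
  have e4 : c ^ 2 ≤ N x / N y := by
    rw [le_div_iff₀ hy]
    have := N_nonneg (x - c • y)
    rw [e2] at this
    nlinarith
  have e5 : M i x = c • M i y + M i (x - c • y) := by rw [M_sub, M_smul]; abel
  have h1 := N_add_le (c • M i y) (M i (x - c • y)) ε hε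
  rw [← e5, N_smul] at h1
  have h2 := N_M_le i (x - c • y)
  have h3 := N_le_M i y
  set q := dt (x, y) ^ 2 / N y ^ 2 with hq
  have hq0 : 0 ≤ q := by positivity
  have h4 : N (M i (x - c • y)) ≤ 27 / 4 * q * N (M i y) := by
    rw [e3] at h2
    nlinarith
  have h5 : 0 < 1 + ε⁻¹ := by positivity
  rw [div_le_iff₀ hy']
  have h6 := mul_le_mul_of_nonneg_left h4 h5.le
  have h7 := mul_le_mul_of_nonneg_right e4 hy'.le
  have h8 := mul_le_mul_of_nonneg_left h7 (by positivity : 0 ≤ 1 + ε)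
  nlinarith

theorem add_rpow_le (s t ε p : ℝ) (hs : 0 ≤ s) (ht : 0 ≤ t) (hε : 0 < ε) (hp : 0 ≤ p) :
    (s + t) ^ p ≤ ((1 + ε) * s) ^ p + ((1 + ε⁻¹) * t) ^ p := by
  have a1 : 0 ≤ ((1 + ε) * s) ^ p := by positivity
  have a2 : 0 ≤ ((1 + ε⁻¹) * t) ^ p := by positivity
  rcases le_total t (ε * s) with h | h
  · have : (s + t) ^ p ≤ ((1 + ε) * s) ^ p := Real.rpow_le_rpow (by positivity) (by linarith) hp
    linarith
  · have h1 : s ≤ ε⁻¹ * t := by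
      rw [← div_eq_inv_mul, le_div_iff₀ hε]; linarith
    have : (s + t) ^ p ≤ ((1 + ε⁻¹) * t) ^ p := Real.rpow_le_rpow (by positivity) (by linarith) hp
    linarith

theorem HH_eq (p : ℝ) (w : (ℝ × ℝ) × (ℝ × ℝ)) (hw : 0 < N w.2) :
    HH p w = N w.2 * (N w.1 / N w.2) ^ p := by
  unfold HH
  rw [Real.div_rpow (N_nonneg _) hw.le, Real.rpow_sub hw, Real.rpow_one]
  field_simp

theorem YY_eq (p : ℝ) (w : (ℝ × ℝ) × (ℝ × ℝ)) (hw : 0 < N w.2) :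
    YY p w = N w.2 * (dt w ^ 2 / N w.2 ^ 2) ^ p := by
  unfold YY
  rw [Real.div_rpow (sq_nonneg _) (sq_nonneg _), Real.rpow_sub hw, Real.rpow_one,
    ← Real.rpow_natCast_mul hw.le]
  push_cast
  field_simp

theorem one_step (p : ℝ) (hp1 : 0 ≤ p) (hp2 : p ≤ 2) (ε : ℝ) (hε : 0 < ε) (hε1 : ε ≤ 1)
    (w : (ℝ × ℝ) × (ℝ × ℝ)) (hw : 0 < N w.2) :
    T MM 1 (HH p) w ≤ 15 * (1 + ε) ^ 4 * HH p w + 15 * 729 * ε⁻¹ ^ 4 * YY p w := by
  obtain ⟨x, y⟩ := w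
  set r := N x / N y with hr
  set q := dt (x, y) ^ 2 / N y ^ 2 with hq
  have hr0 : 0 ≤ r := div_nonneg (N_nonneg x) (N_nonneg y)
  have hq0 : 0 ≤ q := by positivity
  have hinv : 1 ≤ ε⁻¹ := one_le_inv_iff₀.2 ⟨hε, hε1⟩
  have key : ∀ i, HH p (MM i (x, y)) ≤
      N (M i y) * ((1 + ε) ^ 4 * r ^ p + 729 * ε⁻¹ ^ 4 * q ^ p) := by
    intro i
    have hy' : 0 < N (M i y) := lt_of_lt_of_le hw (N_le_M i y)
    rw [HH_eq p _ hy']
    refine mul_le_mul_of_nonneg_left ?_ hy'.le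
    have h1 := ratio_le i x y hw ε hε
    have h2 := Real.rpow_le_rpow (div_nonneg (N_nonneg _) (N_nonneg _)) h1 hp1
    refine h2.trans ((add_rpow_le _ _ ε p (by positivity) (by positivity) hε hp1).trans ?_)
    have b1 : ((1 + ε) * ((1 + ε) * r)) ^ p ≤ (1 + ε) ^ 4 * r ^ p := by
      rw [← mul_assoc, Real.mul_rpow (by positivity) hr0]
      refine mul_le_mul_of_nonneg_right ?_ (by positivity)
      calc ((1 + ε) * (1 + ε)) ^ p ≤ ((1 + ε) * (1 + ε)) ^ (2 : ℝ) :=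
            Real.rpow_le_rpow_of_exponent_le (by nlinarith) hp2
        _ = (1 + ε) ^ 4 := by rw [Real.rpow_two]; ring
    have b2 : ((1 + ε⁻¹) * ((1 + ε⁻¹) * (27 / 4 * q))) ^ p ≤ 729 * ε⁻¹ ^ 4 * q ^ p := by
      rw [← mul_assoc, ← mul_assoc, Real.mul_rpow (by positivity) hq0]
      refine mul_le_mul_of_nonneg_right ?_ (by positivity)
      calc ((1 + ε⁻¹) * (1 + ε⁻¹) * (27 / 4)) ^ p
          ≤ ((1 + ε⁻¹) * (1 + ε⁻¹) * (27 / 4)) ^ (2 : ℝ) :=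
            Real.rpow_le_rpow_of_exponent_le (by nlinarith) hp2
        _ = ((1 + ε⁻¹) * (1 + ε⁻¹) * (27 / 4)) ^ 2 := Real.rpow_two _
        _ ≤ ((2 * ε⁻¹) * (2 * ε⁻¹) * (27 / 4)) ^ 2 := by gcongr <;> linarith
        _ = 729 * ε⁻¹ ^ 4 := by ring
    exact add_le_add b1 b2
  have hsum : N (M 0 y) + N (M 1 y) + N (M 2 y) = 15 * N y := by
    rw [N_M0, N_M1, N_M2]; simp only [N]; ring
  rw [T_succ, T_zero, T_zero, T_zero, HH_eq p (x, y) hw, YY_eq p (x, y) hw]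
  have k0 := key 0
  have k1 := key 1
  have k2 := key 2
  calc _ ≤ (N (M 0 y) + N (M 1 y) + N (M 2 y)) *
        ((1 + ε) ^ 4 * r ^ p + 729 * ε⁻¹ ^ 4 * q ^ p) := by linarith
    _ = _ := by rw [hsum]; ring

theorem bounded_of_rec (X : ℕ → ℝ) (K θ : ℝ) (hK : 0 ≤ K) (h0 : 0 < θ) (h1 : θ < 1)
    (hX : ∀ n, 0 ≤ X n) (h : ∀ n, X (n + 1) ≤ (1 + θ ^ n) ^ 4 * X n + K * θ ^ n) :
    ∃ C, ∀ n, X n ≤ C := by
  have key : ∀ n, X n + K ≤ (X 0 + K) * Real.exp (4 * (1 - θ ^ n) / (1 - θ)) := by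
    intro n
    induction n with
    | zero => simp
    | succ n ih =>
      have a0 : 0 < θ ^ n := by positivity
      have a1 : 1 + θ ^ n ≤ (1 + θ ^ n) ^ 4 := le_self_pow₀ (by linarith) (by norm_num)
      have a2 : (1 + θ ^ n) ^ 4 ≤ Real.exp (4 * θ ^ n) := by
        have := Real.add_one_le_exp (θ ^ n)
        calc (1 + θ ^ n) ^ 4 ≤ (Real.exp (θ ^ n)) ^ 4 :=
              pow_le_pow_left₀ (by linarith) (by linarith) 4
          _ = _ := by rw [← Real.exp_nat_mul]; norm_num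
      have a3 : X (n + 1) + K ≤ (1 + θ ^ n) ^ 4 * (X n + K) := by
        have := mul_le_mul_of_nonneg_left a1 hK
        nlinarith [h n]
      have a4 : 4 * (1 - θ ^ (n + 1)) / (1 - θ) = 4 * θ ^ n + 4 * (1 - θ ^ n) / (1 - θ) := by
        have : 1 - θ ≠ 0 := by linarith
        field_simp; ring
      rw [a4, Real.exp_add]
      have a5 : 0 ≤ X n + K := add_nonneg (hX n) hK
      calc X (n + 1) + K ≤ Real.exp (4 * θ ^ n) * (X n + K) :=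
            a3.trans (mul_le_mul_of_nonneg_right a2 a5)
        _ ≤ Real.exp (4 * θ ^ n) * ((X 0 + K) * Real.exp (4 * (1 - θ ^ n) / (1 - θ))) :=
            mul_le_mul_of_nonneg_left ih (Real.exp_pos _).le
        _ = _ := by ring
  refine ⟨(X 0 + K) * Real.exp (4 / (1 - θ)), fun n => ?_⟩
  have a0 : 0 < θ ^ n := by positivity
  have a1 : Real.exp (4 * (1 - θ ^ n) / (1 - θ)) ≤ Real.exp (4 / (1 - θ)) := by
    apply Real.exp_le_exp.2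
    apply div_le_div_of_nonneg_right _ (by linarith)
    linarith
  have a2 := mul_le_mul_of_nonneg_left a1 (add_nonneg (hX 0) hK)
  linarith [key n]

theorem HH_nonneg (p : ℝ) (w : (ℝ × ℝ) × (ℝ × ℝ)) : 0 ≤ HH p w :=
  mul_nonneg (Real.rpow_nonneg (N_nonneg _) _) (Real.rpow_nonneg (N_nonneg _) _)

theorem pair_bound_high (p : ℝ) (hp : sg ≤ 2 * p - 1) (hp2 : p ≤ 2) (h9 : (9 : ℝ) ^ p < 15)
    (w : (ℝ × ℝ) × (ℝ × ℝ)) (hw : 0 < N w.2) :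
    ∃ C, ∀ n, T MM n (HH p) w / 15 ^ n ≤ C := by
  obtain ⟨K, hK, hY⟩ := T_YY p hp w hw
  have hp0 : 0 ≤ p := by unfold sg at hp; linarith
  set γ : ℝ := 9 ^ p / 15 with hγ
  have hγ0 : 0 < γ := by positivity
  have hγ1 : γ < 1 := by rw [hγ, div_lt_one (by norm_num)]; exact h9
  set θ : ℝ := γ ^ ((5 : ℕ)⁻¹ : ℝ) with hθ
  have hθ0 : 0 < θ := Real.rpow_pos_of_pos hγ0 _
  have hθ1 : θ < 1 := Real.rpow_lt_one hγ0.le hγ1 (by positivity)
  have hθ5 : θ ^ 5 = γ := Real.rpow_inv_natCast_pow hγ0.le (by norm_num)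
  refine bounded_of_rec (fun n => T MM n (HH p) w / 15 ^ n) (729 * K) θ (by positivity) hθ0 hθ1
    (fun n => div_nonneg (T_nonneg _ _ (HH_nonneg p) _ _) (by positivity)) fun n => ?_
  have a0 : 0 < θ ^ n := by positivity
  have a1 : θ ^ n ≤ 1 := pow_le_one₀ hθ0.le hθ1.le
  have a2 : T MM (n + 1) (HH p) w ≤ T MM n (fun v => 15 * (1 + θ ^ n) ^ 4 * HH p v +
      15 * 729 * (θ ^ n)⁻¹ ^ 4 * YY p v) w := by
    rw [T_add]
    exact T_mono MM _ _ (fun v => 0 < N v.2) (fun v i hv => hv.trans_le (N_le_M i v.2))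
      (fun v hv => one_step p hp0 hp2 _ a0 a1 v hv) n w hw
  rw [T_plus, T_mul, T_mul] at a2
  have a3 : (θ ^ n)⁻¹ ^ 4 * (9 ^ p) ^ n = θ ^ n * 15 ^ n := by
    have : (9 : ℝ) ^ p = θ ^ 5 * 15 := by rw [hθ5, hγ]; field_simp
    rw [this, mul_pow, ← pow_mul, mul_comm 5 n, pow_mul]
    field_simp
  have a4 : (θ ^ n)⁻¹ ^ 4 * T MM n (YY p) w ≤ K * (θ ^ n * 15 ^ n) := by
    rw [← a3]
    have := mul_le_mul_of_nonneg_left (hY n) (by positivity : 0 ≤ (θ ^ n)⁻¹ ^ 4)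
    linarith
  have a5 : (0 : ℝ) < 15 ^ n := by positivity
  show T MM (n + 1) (HH p) w / 15 ^ (n + 1) ≤
    (1 + θ ^ n) ^ 4 * (T MM n (HH p) w / 15 ^ n) + 729 * K * θ ^ n
  rw [div_le_iff₀ (by positivity), pow_succ (15 : ℝ) n]
  have e : ((1 + θ ^ n) ^ 4 * (T MM n (HH p) w / 15 ^ n) + 729 * K * θ ^ n) * (15 ^ n * 15) =
      15 * (1 + θ ^ n) ^ 4 * T MM n (HH p) w + 15 * 729 * (K * (θ ^ n * 15 ^ n)) := by
    field_simp
  rw [e]
  linarith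

theorem T_N2 (n : ℕ) (w : (ℝ × ℝ) × (ℝ × ℝ)) : T MM n (fun v => N v.2) w = 15 ^ n * N w.2 := by
  induction n generalizing w with
  | zero => simp
  | succ n ih =>
    rw [T_succ, ih, ih, ih]
    simp only [MM]
    rw [N_M0, N_M1, N_M2]; simp only [N]; ring

theorem pair_bound (p : ℝ) (hp : 1 < p) (h9 : (9 : ℝ) ^ p < 15)
    (w : (ℝ × ℝ) × (ℝ × ℝ)) (hw : 0 < N w.2) :
    ∃ C, ∀ n, T MM n (HH p) w / 15 ^ n ≤ C := by
  have hp2 : p ≤ 2 := by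
    by_contra h
    have : (9 : ℝ) ^ (2 : ℝ) ≤ 9 ^ p := Real.rpow_le_rpow_of_exponent_le (by norm_num) (by linarith)
    rw [Real.rpow_two] at this
    linarith
  by_cases h : sg ≤ 2 * p - 1
  · exact pair_bound_high p h hp2 h9 w hw
  have hlt : p ≤ 16 / 13 := by unfold sg at h; linarith
  have h9' : (9 : ℝ) ^ (16 / 13 : ℝ) < 15 := by
    have e : ((9 : ℝ) ^ (16 / 13 : ℝ)) ^ 13 = 9 ^ 16 := by
      rw [← Real.rpow_natCast, ← Real.rpow_mul (by norm_num), ← Real.rpow_natCast]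
      norm_num
    refine lt_of_pow_lt_pow_left₀ 13 (by norm_num) ?_
    rw [e]; norm_num
  obtain ⟨C, hC⟩ := pair_bound_high (16 / 13) (by unfold sg; norm_num) (by norm_num) h9' w hw
  refine ⟨N w.2 + C, fun n => ?_⟩
  have a1 : T MM n (HH p) w ≤ T MM n (fun v => N v.2 + HH (16 / 13) v) w := by
    refine T_mono MM _ _ (fun v => 0 < N v.2) (fun v i hv => hv.trans_le (N_le_M i v.2))
      (fun v hv => ?_) n w hw
    rw [HH_eq _ _ hv, HH_eq _ _ hv]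
    have hr : 0 ≤ N v.1 / N v.2 := div_nonneg (N_nonneg _) hv.le
    have : (N v.1 / N v.2) ^ p ≤ 1 + (N v.1 / N v.2) ^ (16 / 13 : ℝ) := by
      have b0 : 0 ≤ (N v.1 / N v.2) ^ (16 / 13 : ℝ) := Real.rpow_nonneg hr _
      rcases le_total (N v.1 / N v.2) 1 with b | b
      · linarith [Real.rpow_le_one hr b (by linarith : 0 ≤ p)]
      · linarith [Real.rpow_le_rpow_of_exponent_le b hlt]
    nlinarith
  rw [T_plus, T_N2] at a1
  have a2 := hC n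
  have a5 : (0 : ℝ) < 15 ^ n := by positivity
  rw [div_le_iff₀ a5] at a2 ⊢
  nlinarith

end Pool.Agent.H951Z
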