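import Mathlib

set_option autoImplicit false

namespace Pool.Agent.H951Z

/-- Sum of `F` over the level-`n` descendants of `z` in the ternary tree given by the maps `f i`. -/
def T {α : Type} (f : Fin 3 → α → α) : ℕ → (α → ℝ) → α → ℝ
  | 0, F, z => F z
  | n + 1, F, z => T f n F (f 0 z) + T f n F (f 1 z) + T f n F (f 2 z)

section
variable {α β : Type}

@[simp] theorem T_zero (f : Fin 3 → α → α) (F : α → ℝ) (z : α) : T f 0 F z = F z := rfl

theorem T_succ (f : Fin 3 → α → α) (n : ℕ) (F : α → ℝ) (z : α) :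
    T f (n + 1) F z = T f n F (f 0 z) + T f n F (f 1 z) + T f n F (f 2 z) := rfl

theorem T_add (f : Fin 3 → α → α) (k n : ℕ) (F : α → ℝ) (z : α) :
    T f (k + n) F z = T f k (T f n F) z := by
  induction k generalizing z with
  | zero => simp
  | succ k ih =>
    rw [show k + 1 + n = (k + n) + 1 by ring, T_succ, T_succ, ih, ih, ih]

theorem T_rel (f : Fin 3 → α → α) (g : Fin 3 → β → β) (F : α → ℝ) (G : β → ℝ)
    (R : ℕ → α → β → Prop) (hR : ∀ k x y i, R (k + 1) x y → R k (f i x) (g i y))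
    (h0 : ∀ x y, R 0 x y → F x ≤ G y) :
    ∀ k x y, R k x y → T f k F x ≤ T g k G y := by
  intro k
  induction k with
  | zero => intro x y h; exact h0 x y h
  | succ k ih =>
    intro x y h
    rw [T_succ, T_succ]
    have h1 := ih _ _ (hR k x y 0 h)
    have h2 := ih _ _ (hR k x y 1 h)
    have h3 := ih _ _ (hR k x y 2 h)
    linarith

theorem T_mono (f : Fin 3 → α → α) (F G : α → ℝ) (P : α → Prop)
    (hP : ∀ x i, P x → P (f i x)) (h0 : ∀ x, P x → F x ≤ G x) (k : ℕ) (x : α) (hx : P x) :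
    T f k F x ≤ T f k G x := by
  refine T_rel f f F G (fun _ x y => x = y ∧ P x) ?_ ?_ k x x ⟨rfl, hx⟩
  · rintro k x y i ⟨rfl, h⟩
    exact ⟨rfl, hP x i h⟩
  · rintro x y ⟨rfl, h⟩
    exact h0 x h

theorem T_mul (f : Fin 3 → α → α) (c : ℝ) (F : α → ℝ) (k : ℕ) (z : α) :
    T f k (fun x => c * F x) z = c * T f k F z := by
  induction k generalizing z with
  | zero => simp
  | succ k ih => rw [T_succ, T_succ, ih, ih, ih]; ring

theorem T_plus (f : Fin 3 → α → α) (F G : α → ℝ) (k : ℕ) (z : α) :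
    T f k (fun x => F x + G x) z = T f k F z + T f k G z := by
  induction k generalizing z with
  | zero => simp
  | succ k ih => rw [T_succ, T_succ, T_succ, ih, ih, ih]; ring

theorem T_nonneg (f : Fin 3 → α → α) (F : α → ℝ) (hF : ∀ x, 0 ≤ F x) (k : ℕ) (z : α) :
    0 ≤ T f k F z := by
  induction k generalizing z with
  | zero => simpa using hF z
  | succ k ih =>
    rw [T_succ]
    have := ih (f 0 z); have := ih (f 1 z); have := ih (f 2 z)
    linarith

theorem T_conj (f : Fin 3 → α → α) (g : Fin 3 → β → β) (π : α → β)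
    (h : ∀ i x, π (f i x) = g i (π x)) (G : β → ℝ) (k : ℕ) (z : α) :
    T f k (fun x => G (π x)) z = T g k G (π z) := by
  induction k generalizing z with
  | zero => simp
  | succ k ih => rw [T_succ, T_succ, ih, ih, ih, h, h, h]

theorem T_rot (f : Fin 3 → α → α) (ρ : α → α)
    (h0 : ∀ x, ρ (f 0 x) = f 1 (ρ x)) (h1 : ∀ x, ρ (f 1 x) = f 2 (ρ x))
    (h2 : ∀ x, ρ (f 2 x) = f 0 (ρ x)) (F : α → ℝ) (hF : ∀ x, F (ρ x) = F x) (k : ℕ) (z : α) :
    T f k F (ρ z) = T f k F z := by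
  induction k generalizing z with
  | zero => simpa using hF z
  | succ k ih =>
    rw [T_succ, T_succ, ← h0, ← h1, ← h2, ih, ih, ih]; ring

theorem T_words (f : Fin 3 → α → α) (F : α → ℝ) (n : ℕ) (z : α) :
    ∑ w : Fin n → Fin 3, F ((List.ofFn w).foldl (fun v i => f i v) z) = T f n F z := by
  induction n generalizing z with
  | zero => simp
  | succ n ih =>
    rw [T_succ, ← ih, ← ih, ← ih]
    rw [← (Fin.consEquiv (fun _ : Fin (n + 1) => Fin 3)).sum_comp, Fintype.sum_prod_type,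
      Fin.sum_univ_three]
    simp [Fin.consEquiv, List.ofFn_succ]

end

/-- The three maps (five times the harmonic extension matrices, modulo constants). -/
def M {R : Type} [CommRing R] : Fin 3 → R × R → R × R
  | 0, z => (3 * z.1, z.2 - z.1)
  | 1, z => (z.1 - z.2, 3 * z.2)
  | 2, z => (2 * z.1 + z.2, z.1 + 2 * z.2)

/-- The energy form. -/
def N {R : Type} [CommRing R] (z : R × R) : R := z.1 ^ 2 + z.1 * z.2 + z.2 ^ 2

/-- Rotation of order three. -/
def rot {R : Type} [CommRing R] (z : R × R) : R × R := (-z.1 - z.2, z.1)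

section
variable {R : Type} [CommRing R]

theorem M0 (z : R × R) : M 0 z = (3 * z.1, z.2 - z.1) := rfl
theorem M1 (z : R × R) : M 1 z = (z.1 - z.2, 3 * z.2) := rfl
theorem M2 (z : R × R) : M 2 z = (2 * z.1 + z.2, z.1 + 2 * z.2) := rfl

theorem N_rot (z : R × R) : N (rot z) = N z := by simp only [N, rot]; ring

theorem rot_M0 (z : R × R) : rot (M 0 z) = M 1 (rot z) := by
  simp only [rot, M0, M1, Prod.mk.injEq, and_true]; ring
theorem rot_M1 (z : R × R) : rot (M 1 z) = M 2 (rot z) := by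
  simp only [rot, M2, M1, Prod.mk.injEq]; constructor <;> ring
theorem rot_M2 (z : R × R) : rot (M 2 z) = M 0 (rot z) := by
  simp only [rot, M0, M2, Prod.mk.injEq]; constructor <;> ring

theorem T_M_rot (F : R × R → ℝ) (hF : ∀ x, F (rot x) = F x) (k : ℕ) (z : R × R) :
    T M k F (rot z) = T M k F z := T_rot M rot rot_M0 rot_M1 rot_M2 F hF k z

theorem N_M0 (z : R × R) : N (M 0 z) = N z + 6 * z.1 ^ 2 := by simp only [N, M0]; ring
theorem N_M1 (z : R × R) : N (M 1 z) = N z + 6 * z.2 ^ 2 := by simp only [N, M1]; ring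
theorem N_M2 (z : R × R) : N (M 2 z) = N z + 6 * (z.1 + z.2) ^ 2 := by simp only [N, M2]; ring

end

theorem N_nonneg (z : ℝ × ℝ) : 0 ≤ N z := by
  simp only [N]; nlinarith [sq_nonneg (z.1 + z.2), sq_nonneg z.1, sq_nonneg z.2]

theorem N_le_M (i : Fin 3) (z : ℝ × ℝ) : N z ≤ N (M i z) := by
  fin_cases i
  · have := N_M0 z; simp only [Fin.zero_eta]; nlinarith [sq_nonneg z.1]
  · have := N_M1 z; simp only [Fin.mk_one]; nlinarith [sq_nonneg z.2]
  · have := N_M2 z; simp only [Fin.reduceFinMk]; nlinarith [sq_nonneg (z.1 + z.2)]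

theorem N_M_le (i : Fin 3) (z : ℝ × ℝ) : N (M i z) ≤ 9 * N z := by
  fin_cases i
  · have := N_M0 z; simp only [Fin.zero_eta]; rw [this]; simp only [N]
    nlinarith [sq_nonneg (z.1 + 2 * z.2)]
  · have := N_M1 z; simp only [Fin.mk_one]; rw [this]; simp only [N]
    nlinarith [sq_nonneg (2 * z.1 + z.2)]
  · have := N_M2 z; simp only [Fin.reduceFinMk]; rw [this]; simp only [N]
    nlinarith [sq_nonneg (z.1 - z.2)]

theorem M_sub (i : Fin 3) (x y : ℝ × ℝ) : M i (x - y) = M i x - M i y := by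
  fin_cases i
  · simp only [Fin.zero_eta, M0, Prod.fst_sub, Prod.snd_sub, Prod.mk_sub_mk, Prod.mk.injEq]
    constructor <;> ring
  · simp only [Fin.mk_one, M1, Prod.fst_sub, Prod.snd_sub, Prod.mk_sub_mk, Prod.mk.injEq]
    constructor <;> ring
  · simp only [Fin.reduceFinMk, M2, Prod.fst_sub, Prod.snd_sub, Prod.mk_sub_mk, Prod.mk.injEq]
    constructor <;> ring

theorem M_smul (i : Fin 3) (c : ℝ) (x : ℝ × ℝ) : M i (c • x) = c • M i x := by
  fin_cases i
  · simp only [Fin.zero_eta, M0, Prod.smul_fst, Prod.smul_snd, Prod.smul_mk, smul_eq_mul,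
      Prod.mk.injEq]
    constructor <;> ring
  · simp only [Fin.mk_one, M1, Prod.smul_fst, Prod.smul_snd, Prod.smul_mk, smul_eq_mul,
      Prod.mk.injEq]
    constructor <;> ring
  · simp only [Fin.reduceFinMk, M2, Prod.smul_fst, Prod.smul_snd, Prod.smul_mk, smul_eq_mul,
      Prod.mk.injEq]
    constructor <;> ring

theorem N_smul (c : ℝ) (x : ℝ × ℝ) : N (c • x) = c ^ 2 * N x := by
  simp only [N, Prod.smul_fst, Prod.smul_snd, smul_eq_mul]; ring

/-- The exponent. -/
noncomputable def sg : ℝ := 19 / 13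

theorem rpow_neg_le {x y c : ℝ} (hy : 0 < y) (hxy : y ≤ x) (hc : 0 < c)
    (h : 1 ≤ c ^ 13 * y ^ 19) : x ^ (-sg) ≤ c := by
  have h1 : x ^ (-sg) ≤ y ^ (-sg) :=
    Real.rpow_le_rpow_of_nonpos hy hxy (by unfold sg; norm_num)
  refine h1.trans ?_
  have h2 : (y ^ (-sg)) ^ 13 = (y ^ 19)⁻¹ := by
    rw [← Real.rpow_natCast, ← Real.rpow_mul hy.le, ← Real.rpow_natCast, ← Real.rpow_neg hy.le]
    congr 1
    unfold sg; norm_num
  have h3 : (y ^ (-sg)) ^ 13 ≤ c ^ 13 := by
    rw [h2, inv_le_iff_one_le_mul₀ (by positivity)]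
    exact h
  exact le_of_pow_le_pow_left₀ (by norm_num) hc.le h3

theorem rpow_pos_le {x y c : ℝ} (hx : 0 ≤ x) (hxy : x ≤ y) (hc : 0 < c)
    (h : y ^ 19 ≤ c ^ 13) : x ^ sg ≤ c := by
  have h1 : x ^ sg ≤ y ^ sg := Real.rpow_le_rpow hx hxy (by unfold sg; norm_num)
  refine h1.trans ?_
  have hy : 0 ≤ y := hx.trans hxy
  have h2 : (y ^ sg) ^ 13 = y ^ 19 := by
    rw [← Real.rpow_natCast, ← Real.rpow_mul hy, ← Real.rpow_natCast]
    congr 1
    unfold sg; norm_num
  have h3 : (y ^ sg) ^ 13 ≤ c ^ 13 := by rw [h2]; exact h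
  exact le_of_pow_le_pow_left₀ (by norm_num) hc.le h3

end Pool.Agent.H951Z
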